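import Mathlib

namespace Pool.Agent.Work.MP_86ed72_nt

open Finset ArithmeticFunction

/-- The part of `N` composed of the primes satisfying `P`. -/
noncomputable def part (P : ℕ → Prop) [DecidablePred P] (N : ℕ) : ℕ :=
  (N.factorization.filter P).prod (fun p k => p ^ k)

/-- The von Mangoldt function restricted to powers of primes satisfying `P`. -/
noncomputable def lam (P : ℕ → Prop) [DecidablePred P] : ArithmeticFunction ℝ :=
  ⟨fun q => if P q.minFac then vonMangoldt q else 0, by simp⟩

variable (P : ℕ → Prop) [DecidablePred P]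

theorem lam_apply (q : ℕ) : lam P q = if P q.minFac then vonMangoldt q else 0 := rfl

theorem lam_nonneg (q : ℕ) : 0 ≤ lam P q := by
  rw [lam_apply]; split_ifs
  · exact vonMangoldt_nonneg
  · exact le_rfl

theorem lam_le (q : ℕ) : lam P q ≤ vonMangoldt q := by
  rw [lam_apply]; split_ifs
  · exact le_rfl
  · exact vonMangoldt_nonneg

theorem part_factorization (N : ℕ) : (part P N).factorization = N.factorization.filter P := by
  unfold part
  apply Nat.prod_pow_factorization_eq_self
  intro p hp
  rw [Finsupp.support_filter, Finset.mem_filter] at hp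
  exact Nat.prime_of_mem_primeFactors hp.1

theorem part_ne_zero (N : ℕ) : part P N ≠ 0 := by
  unfold part
  rw [Finsupp.prod]
  apply Finset.prod_ne_zero_iff.mpr
  intro p hp
  rw [Finsupp.support_filter, Finset.mem_filter] at hp
  exact pow_ne_zero _ (Nat.prime_of_mem_primeFactors hp.1).ne_zero

theorem part_one : part P 1 = 1 := by
  unfold part
  rw [Nat.factorization_one]
  have : Finsupp.filter P (0 : ℕ →₀ ℕ) = 0 := by ext p; simp [Finsupp.filter_apply]
  rw [this]; rfl

theorem part_mul {a b : ℕ} (ha : a ≠ 0) (hb : b ≠ 0) : part P (a * b) = part P a * part P b := by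
  apply Nat.eq_of_factorization_eq (part_ne_zero _ _)
    (mul_ne_zero (part_ne_zero _ _) (part_ne_zero _ _))
  intro p
  rw [Nat.factorization_mul (part_ne_zero _ _) (part_ne_zero _ _), part_factorization,
    part_factorization, part_factorization, Nat.factorization_mul ha hb]
  simp [Finsupp.filter_add]

theorem part_dvd (N : ℕ) (hN : N ≠ 0) : part P N ∣ N := by
  rw [← Nat.factorization_le_iff_dvd (part_ne_zero _ _) hN, part_factorization]
  intro p
  rw [Finsupp.filter_apply]
  split_ifs <;> simp

theorem prime_pow_dvd_part {N p k : ℕ} (hN : N ≠ 0) (hp : p.Prime) (hP : P p) :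
    p ^ k ∣ part P N ↔ p ^ k ∣ N := by
  rw [hp.pow_dvd_iff_le_factorization (part_ne_zero _ _), hp.pow_dvd_iff_le_factorization hN,
    part_factorization, Finsupp.filter_apply, if_pos hP]

theorem vonMangoldt_eq_zero' {q : ℕ} (h : ¬ IsPrimePow q) : vonMangoldt q = 0 :=
  vonMangoldt_eq_zero_iff.mpr h

theorem sum_lam {N : ℕ} (hN : N ≠ 0) : ∑ q ∈ N.divisors, lam P q = Real.log (part P N) := by
  rw [← vonMangoldt_sum]
  have h1 : ∑ q ∈ N.divisors, lam P q
      = ∑ q ∈ N.divisors.filter (fun q => IsPrimePow q ∧ P q.minFac), vonMangoldt q := by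
    rw [Finset.sum_filter]
    apply Finset.sum_congr rfl
    intro q _
    rw [lam_apply]
    by_cases h : P q.minFac
    · by_cases h2 : IsPrimePow q
      · simp [h, h2]
      · simp [h, h2, vonMangoldt_eq_zero' h2]
    · simp [h]
  have h2 : ∑ q ∈ (part P N).divisors, vonMangoldt q
      = ∑ q ∈ (part P N).divisors.filter (fun q => IsPrimePow q ∧ P q.minFac), vonMangoldt q := by
    rw [Finset.sum_filter]
    apply Finset.sum_congr rfl
    intro q hq
    by_cases h2 : IsPrimePow q
    · by_cases h : P q.minFac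
      · simp [h, h2]
      · exfalso
        apply h
        have hq' := Nat.dvd_of_mem_divisors hq
        have h3 : q.minFac ∣ part P N := (Nat.minFac_dvd q).trans hq'
        have hpr : q.minFac.Prime := Nat.minFac_prime h2.one_lt.ne'
        have h4 : 0 < (part P N).factorization q.minFac :=
          hpr.factorization_pos_of_dvd (part_ne_zero _ _) h3
        rw [part_factorization, Finsupp.filter_apply] at h4
        by_contra h5
        rw [if_neg h5] at h4
        exact absurd h4 (lt_irrefl _)
    · simp [h2, vonMangoldt_eq_zero' h2]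
  rw [h1, h2]
  congr 1
  ext q
  simp only [Finset.mem_filter, Nat.mem_divisors]
  constructor
  · rintro ⟨⟨h1, h2⟩, h3, h4⟩
    refine ⟨⟨?_, part_ne_zero _ _⟩, h3, h4⟩
    obtain ⟨p, k, hp, hk, rfl⟩ := h3
    rw [hp.nat_prime.pow_minFac hk.ne'] at h4
    rwa [prime_pow_dvd_part P hN hp.nat_prime h4]
  · rintro ⟨⟨h1, h2⟩, h3, h4⟩
    exact ⟨⟨h1.trans (part_dvd P N hN), hN⟩, h3, h4⟩

theorem lam_mul_zeta {N : ℕ} (hN : N ≠ 0) :
    (lam P * (zeta : ArithmeticFunction ℝ)) N = Real.log (part P N) := by
  rw [coe_mul_zeta_apply, sum_lam P hN]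

theorem log_part_factorial (n : ℕ) :
    Real.log (part P n.factorial) = ∑ N ∈ Ioc 0 n, (lam P * (zeta : ArithmeticFunction ℝ)) N := by
  induction n with
  | zero => simp [part_one]
  | succ n ih =>
    rw [Nat.factorial_succ, part_mul P (Nat.succ_ne_zero n) n.factorial_ne_zero]
    push_cast
    rw [Real.log_mul (by exact_mod_cast part_ne_zero P _) (by exact_mod_cast part_ne_zero P _), ih,
      ← Finset.insert_Ioc_right_eq_Ioc_add_one (Nat.zero_le n), Finset.sum_insert (by simp),
      lam_mul_zeta P (N := n + 1) (Nat.succ_ne_zero n)]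

/-- `log part_P(n!) = ∑_{q ≤ n} lam(q) ⌊n/q⌋`. -/
theorem log_part_factorial_eq_sum (n : ℕ) :
    Real.log (part P n.factorial) = ∑ q ∈ Ioc 0 n, lam P q * ((n / q : ℕ) : ℝ) := by
  rw [log_part_factorial, sum_Ioc_mul_zeta_eq_sum]

/-- The Chebyshev function of the primes with property `P`. -/
noncomputable def psi (y : ℕ) : ℝ := ∑ q ∈ Ioc 0 y, lam P q

/-- `log part_P(n!) = ∑_{i ≤ n} psi (n/i)`. -/
theorem log_part_factorial_eq_sum_psi (n : ℕ) :
    Real.log (part P n.factorial) = ∑ i ∈ Ioc 0 n, psi P (n / i) := by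
  rw [log_part_factorial, mul_comm, sum_Ioc_mul_eq_sum_sum]
  apply Finset.sum_congr rfl
  intro i hi
  rw [Finset.mem_Ioc] at hi
  have : ((zeta : ArithmeticFunction ℝ) i) = 1 := by
    rw [natCoe_apply, zeta_apply, if_neg (by omega)]; simp
  rw [this, one_mul, psi]

end Pool.Agent.Work.MP_86ed72_nt
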