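import Pool.Agent.Work.MP_86ed72_nt.Cheb

namespace Pool.Agent.Work.MP_86ed72_nt

open Finset ArithmeticFunction

theorem dvd_mul_part {P : ℕ → Prop} [DecidablePred P] {Q N r : ℕ} (hQ : Q ∣ N) (hN : N ≠ 0)
    (hr : r.Prime) (h1 : ∀ q, q.Prime → q ∣ Q → P q ∨ q = r) (h2 : Q.factorization r ≤ 1) :
    Q ∣ r * part P N := by
  have hQ0 : Q ≠ 0 := ne_zero_of_dvd_ne_zero hN hQ
  rw [← Nat.factorization_le_iff_dvd hQ0 (mul_ne_zero hr.ne_zero (part_ne_zero _ _)),
    Nat.factorization_mul hr.ne_zero (part_ne_zero _ _), part_factorization]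
  intro q
  rw [Finsupp.add_apply, hr.factorization, Finsupp.filter_apply, Finsupp.single_apply]
  by_cases hq : q ∈ Q.primeFactors
  · have hqp := Nat.prime_of_mem_primeFactors hq
    have hqd := Nat.dvd_of_mem_primeFactors hq
    have hle : Q.factorization q ≤ N.factorization q :=
      (Nat.factorization_le_iff_dvd hQ0 hN).mpr hQ q
    rcases h1 q hqp hqd with h | h
    · rw [if_pos h]; omega
    · subst h; simp; omega
  · have : Q.factorization q = 0 := by
      rw [← Finsupp.notMem_support_iff, Nat.support_factorization]; exact hq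
    omega

theorem log_le_of_dvd {P : ℕ → Prop} [DecidablePred P] {Q N r : ℕ} (hr : 0 < r) (hQ : 0 < Q)
    (h : Q ∣ r * part P N) : Real.log Q ≤ Real.log r + Real.log (part P N) := by
  have h0 : 0 < part P N := Nat.pos_of_ne_zero (part_ne_zero _ _)
  rw [← Real.log_mul (by positivity) (by positivity)]
  apply Real.log_le_log (by positivity)
  exact_mod_cast Nat.le_of_dvd (by positivity) h

/-- Prime divisors of `1 + y + ... + y^(l-1)` are `l` or `1 mod l`. -/
theorem prime_dvd_geom {l y q : ℕ} (hl : l.Prime) (hq : q.Prime)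
    (h : q ∣ ∑ i ∈ range l, y ^ i) : q % l = 1 ∨ q = l := by
  haveI : Fact q.Prime := ⟨hq⟩
  haveI : Fact l.Prime := ⟨hl⟩
  have h1 : ∑ i ∈ range l, (y : ZMod q) ^ i = 0 := by
    have := (ZMod.natCast_eq_zero_iff (∑ i ∈ range l, y ^ i) q).mpr h
    push_cast at this
    exact this
  have h2 : (y : ZMod q) ^ l = 1 := by
    have := mul_geom_sum (y : ZMod q) l
    rw [h1, mul_zero] at this
    exact (sub_eq_zero.mp this.symm)
  by_cases hy : (y : ZMod q) = 1
  · right
    rw [hy] at h1
    simp only [one_pow, sum_const, card_range, nsmul_eq_mul, mul_one] at h1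
    have := (ZMod.natCast_eq_zero_iff l q).mp h1
    exact (Nat.prime_dvd_prime_iff_eq hq hl).mp this
  · left
    have h3 : orderOf (y : ZMod q) = l := orderOf_eq_prime h2 hy
    have hy0 : (y : ZMod q) ≠ 0 := by
      intro h0
      rw [h0, zero_pow hl.ne_zero] at h2
      exact zero_ne_one h2
    have h4 := ZMod.orderOf_dvd_card_sub_one hy0
    rw [h3] at h4
    obtain ⟨t, ht⟩ := h4
    have h5 : q = 1 + l * t := by have := hq.one_lt; omega
    rw [h5, Nat.add_mul_mod_self_left, Nat.mod_eq_of_lt hl.one_lt]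

theorem factorization_geom_le {l y : ℕ} (hl : l.Prime) (hodd : Odd l) (hy : 2 ≤ y) :
    (∑ i ∈ range l, y ^ i).factorization l ≤ 1 := by
  haveI : Fact l.Prime := ⟨hl⟩
  set Q := ∑ i ∈ range l, y ^ i with hQdef
  have hQpos : 0 < Q := by
    rw [hQdef]
    apply Finset.sum_pos
    · intro i _; positivity
    · exact ⟨0, by simp [hl.pos]⟩
  by_cases hd : l ∣ Q
  swap
  · rw [Nat.factorization_eq_zero_of_not_dvd hd]; exact Nat.zero_le _
  have h1 : ∑ i ∈ range l, (y : ZMod l) ^ i = 0 := by
    have := (ZMod.natCast_eq_zero_iff Q l).mpr hd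
    rw [hQdef] at this
    push_cast at this
    exact this
  have h2 : (y : ZMod l) = 1 := by
    have := mul_geom_sum (y : ZMod l) l
    rw [h1, mul_zero, ZMod.pow_card] at this
    exact (sub_eq_zero.mp this.symm)
  have h3 : l ∣ y - 1 := by
    rw [← ZMod.natCast_eq_zero_iff, Nat.cast_sub (by omega)]
    rw [h2]; simp
  have h4 : ¬ l ∣ y := by
    intro h
    rw [← ZMod.natCast_eq_zero_iff, h2] at h
    exact one_ne_zero h
  have h5 := padicValNat.pow_sub_pow (p := l) hodd (show 1 < y by omega) h3 h4 (n := l) hl.ne_zero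
  have h6 : y ^ l - 1 ^ l = (y - 1) * Q := by
    have h7 : (y - 1) * Q + 1 = y ^ l := by
      have h8 := mul_geom_sum (y : ℤ) l
      zify
      rw [Nat.cast_sub (by omega), hQdef]
      push_cast
      linarith
    rw [one_pow]; omega
  rw [h6, padicValNat.mul (by omega) hQpos.ne', padicValNat_self] at h5
  rw [Nat.factorization_def _ hl]
  omega

theorem log_ratio {l : ℕ} (h5 : 5 ≤ l) :
    (Real.log l + Real.log l / (l - 1)) / (l - 1) ≤ 3 / 5 := by
  have hl : (5 : ℝ) ≤ l := by exact_mod_cast h5
  have h1 : 0 < (l : ℝ) - 1 := by linarith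
  have hlog5 : Real.log 5 ≤ 1.64 := by
    have h : Real.log ((5 : ℝ) ^ 3) ≤ Real.log ((2 : ℝ) ^ 7) :=
      Real.log_le_log (by norm_num) (by norm_num)
    rw [Real.log_pow, Real.log_pow] at h
    have := Real.log_two_lt_d9
    push_cast at h
    linarith
  have hlog : Real.log l ≤ 1.64 + (l - 5) / 5 := by
    have h2 : Real.log (l / 5) ≤ l / 5 - 1 := Real.log_le_sub_one_of_pos (by positivity)
    rw [Real.log_div (by positivity) (by norm_num)] at h2
    linarith
  have h2 : (Real.log l + Real.log l / (l - 1)) / (l - 1)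
      = Real.log l * l / ((l - 1) * (l - 1)) := by
    field_simp; ring
  rw [h2, div_le_div_iff₀ (by positivity) (by norm_num)]
  nlinarith

theorem case_a {n x m l : ℕ} (hl : l.Prime) (h5 : 5 ≤ l) (hdvd : l ∣ m) (hm : 0 < m)
    (hx : 2 ≤ x) (h : n.factorial + x = x ^ (m + 1)) : False := by
  obtain ⟨t, rfl⟩ := hdvd
  have ht : 1 ≤ t := by
    rcases Nat.eq_zero_or_pos t with h0 | h0
    · rw [h0] at hm; simp at hm
    · exact h0
  have hodd : Odd l := hl.odd_of_ne_two (by omega)
  set y := x ^ t with hy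
  have hy2 : 2 ≤ y := by
    calc 2 ≤ x := hx
      _ = x ^ 1 := (pow_one x).symm
      _ ≤ x ^ t := Nat.pow_le_pow_right (by omega) ht
  set Q := ∑ i ∈ range l, y ^ i with hQ
  have hQpow : y ^ (l - 1) + 1 ≤ Q := by
    have h1 : Q = ∑ i ∈ range (l - 1 + 1), y ^ i := by rw [hQ]; congr 2; omega
    rw [h1, Finset.sum_range_succ]
    have h2 : 1 ≤ ∑ i ∈ range (l - 1), y ^ i := by
      have : y ^ 0 ≤ ∑ i ∈ range (l - 1), y ^ i :=
        Finset.single_le_sum (f := fun i => y ^ i) (fun _ _ => Nat.zero_le _)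
          (Finset.mem_range.mpr (by omega))
      simpa using this
    omega
  have hQpos : 0 < Q := by omega
  have hdvdQ : Q ∣ n.factorial := by
    refine ⟨x * (y - 1), ?_⟩
    have h1 := mul_geom_sum (y : ℤ) l
    zify [show 1 ≤ y by omega]
    have h2 : ((n.factorial : ℕ) : ℤ) + x = x ^ (l * t + 1) := by exact_mod_cast h
    have h3 : (x : ℤ) ^ (l * t + 1) = x * (y : ℤ) ^ l := by
      rw [hy]; push_cast; rw [pow_succ, mul_comm l t, pow_mul]; ring
    rw [hQ]; push_cast
    rw [h3] at h2
    linear_combination h2 - (x : ℤ) * h1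
  have hkey : Q ∣ l * part (fun p => p % l = 1) n.factorial :=
    dvd_mul_part hdvdQ n.factorial_ne_zero hl (fun q hq hqd => prime_dvd_geom hl hq hqd)
      (factorization_geom_le hl hodd hy2)
  have hb : ∀ p < 2 * l + 1, p.Prime → ¬ (p % l = 1) := by
    intro p hp hpp hmod
    have h1 := Nat.div_add_mod p l
    rw [hmod] at h1
    have h2 : p / l < 2 := by
      by_contra hc
      have : l * 2 ≤ l * (p / l) := Nat.mul_le_mul_left l (by omega)
      omega
    interval_cases hpl : p / l
    · simp at h1; exact hpp.one_lt.ne h1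
    · simp at h1
      have heven : Even p := by rw [← h1]; exact hodd.add_one
      rcases hpp.eq_two_or_odd' with h3 | h3
      · omega
      · exact (Nat.not_even_iff_odd.mpr h3) heven
  by_cases hn : n < 2 * l + 1
  · have h1 : Real.log (part (fun p => p % l = 1) n.factorial) = 0 := by
      rw [log_part_factorial_eq_sum_psi]
      apply Finset.sum_eq_zero
      intro i hi
      exact psi_eq_zero hb (lt_of_le_of_lt (Nat.div_le_self _ _) hn)
    have h2 := log_le_of_dvd hl.pos hQpos hkey
    rw [h1, add_zero] at h2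
    have h3 : Q ≤ l := by
      have h4 : (Q : ℝ) ≤ l := (Real.log_le_log_iff (by positivity) (by exact_mod_cast hl.pos)).mp h2
      exact_mod_cast h4
    have h4 : l ≤ 2 ^ (l - 1) := by
      have := Nat.lt_two_pow_self (n := l - 1)
      omega
    have h5 : 2 ^ (l - 1) ≤ y ^ (l - 1) := Nat.pow_le_pow_left hy2 _
    omega
  · push Not at hn
    have h1 := log_le_of_dvd hl.pos hQpos hkey
    have h2 := log_part_le hl one_ne_zero (pow_one l).symm (b := 2 * l + 1) (by omega) hb hn
    have hnR : ((2 * l + 1 : ℕ) : ℝ) ≤ n := by exact_mod_cast hn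
    push_cast at hnR
    have hlR : (5 : ℝ) ≤ l := by exact_mod_cast h5
    have hn11 : (11 : ℝ) ≤ n := by linarith
    have h3 : Real.log ((n : ℝ) / ((2 * l + 1 : ℕ) : ℝ)) ≤ Real.log n - Real.log 11 := by
      push_cast
      rw [Real.log_div (by positivity) (by positivity)]
      have : Real.log 11 ≤ Real.log (2 * l + 1) := Real.log_le_log (by norm_num) (by linarith)
      linarith
    have hlog11 : 2.31 ≤ Real.log 11 := by
      have h : Real.log ((2 : ℝ) ^ 10) ≤ Real.log ((11 : ℝ) ^ 3) :=
        Real.log_le_log (by norm_num) (by norm_num)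
      rw [Real.log_pow, Real.log_pow] at h
      have := Real.log_two_gt_d9
      push_cast at h
      linarith
    have h4 : 0 ≤ Real.log ((n : ℝ) / ((2 * l + 1 : ℕ) : ℝ)) := by
      apply Real.log_nonneg
      rw [le_div_iff₀ (by positivity)]
      push_cast
      linarith
    have h6 : Real.log (part (fun p => p % l = 1) n.factorial)
        ≤ 3 / 5 * (n * (1 + (Real.log n - Real.log 11))) := by
      refine h2.trans ?_
      apply mul_le_mul (log_ratio h5) _ (by positivity) (by norm_num)
      apply mul_le_mul_of_nonneg_left _ (by positivity)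
      linarith
    have h7 : Real.log l ≤ Real.log n := Real.log_le_log (by linarith) (by linarith)
    have hlogn : Real.log 11 ≤ Real.log n := Real.log_le_log (by norm_num) hn11
    have hst := Stirling.le_log_factorial_stirling (n := n) (by omega)
    have hlogx : 0 < Real.log x := Real.log_pos (by exact_mod_cast (by omega : 1 < x))
    have h8 : Real.log (n.factorial) ≤ (l * t + 1) * Real.log x := by
      have h9 : (n.factorial : ℝ) ≤ (x : ℝ) ^ (l * t + 1) := by
        have : n.factorial ≤ x ^ (l * t + 1) := by omega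
        exact_mod_cast this
      have h10 := Real.log_le_log (by positivity) h9
      rw [Real.log_pow] at h10
      push_cast at h10
      exact h10
    have h9 : ((l : ℝ) - 1) * t * Real.log x ≤ Real.log Q := by
      have h10 : ((y ^ (l - 1) : ℕ) : ℝ) ≤ Q := by exact_mod_cast (by omega : y ^ (l - 1) ≤ Q)
      have h11 := Real.log_le_log (by positivity) h10
      rw [hy] at h11
      push_cast at h11
      rw [Real.log_pow, Real.log_pow, Nat.cast_sub (by omega)] at h11
      push_cast at h11
      linarith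
    have htR : (1 : ℝ) ≤ t := by exact_mod_cast ht
    -- combine: (l-1) log n! ≤ (l+1) log Q
    have h10 : ((l : ℝ) - 1) * Real.log (n.factorial) ≤ (l + 1) * Real.log Q := by
      have h11 : ((l : ℝ) * t + 1) * Real.log x ≤ (l + 1) * t * Real.log x := by
        apply mul_le_mul_of_nonneg_right _ hlogx.le
        nlinarith
      have h12 : Real.log (n.factorial) ≤ (l + 1) * t * Real.log x := h8.trans h11
      calc ((l : ℝ) - 1) * Real.log (n.factorial)
          ≤ (l - 1) * ((l + 1) * t * Real.log x) :=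
            mul_le_mul_of_nonneg_left h12 (by linarith)
        _ = (l + 1) * ((l - 1) * t * Real.log x) := by ring
        _ ≤ (l + 1) * Real.log Q := mul_le_mul_of_nonneg_left h9 (by linarith)
    have hlf : 0 ≤ Real.log (n.factorial) := Real.log_nonneg (by
      exact_mod_cast Nat.one_le_iff_ne_zero.mpr n.factorial_ne_zero)
    have h11 : 2 / 3 * Real.log (n.factorial) ≤ Real.log Q := by
      have : 2 / 3 * (l + 1) ≤ ((l : ℝ) - 1) := by linarith
      have h13 : (l + 1) * (2 / 3 * Real.log (n.factorial)) ≤ (l + 1) * Real.log Q := by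
        calc (l + 1) * (2 / 3 * Real.log (n.factorial))
            = (2 / 3 * (l + 1)) * Real.log (n.factorial) := by ring
          _ ≤ (l - 1) * Real.log (n.factorial) := mul_le_mul_of_nonneg_right this hlf
          _ ≤ _ := h10
      exact le_of_mul_le_mul_left h13 (by linarith)
    have hpi : 0 ≤ Real.log (2 * Real.pi) := by
      apply Real.log_nonneg
      have := Real.pi_gt_three
      linarith
    set L := Real.log (n : ℝ) with hL
    have hL2 : 2.31 ≤ L := by linarith
    have hmul : 11 * L ≤ n * L := mul_le_mul_of_nonneg_right hn11 (by linarith)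
    nlinarith

theorem prime_dvd_eight {z q : ℕ} (hq : q.Prime) (h : q ∣ z ^ 4 + 1) : q % 8 = 1 ∨ q = 2 := by
  by_cases hq2 : q = 2
  · exact Or.inr hq2
  left
  haveI : Fact q.Prime := ⟨hq⟩
  have h1 : (z : ZMod q) ^ 4 = -1 := by
    have := (ZMod.natCast_eq_zero_iff (z ^ 4 + 1) q).mpr h
    push_cast at this
    exact eq_neg_of_add_eq_zero_left this
  have hne : (-1 : ZMod q) ≠ 1 := by
    haveI : Fact (2 < q) := ⟨lt_of_le_of_ne hq.two_le (Ne.symm hq2)⟩
    exact ZMod.neg_one_ne_one
  have h2 : ¬ (z : ZMod q) ^ 2 ^ 2 = 1 := by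
    norm_num; rw [h1]; exact hne
  have h3 : (z : ZMod q) ^ 2 ^ (2 + 1) = 1 := by
    have : (z : ZMod q) ^ 2 ^ (2 + 1) = ((z : ZMod q) ^ 4) ^ 2 := by ring
    rw [this, h1]; ring
  have h4 := orderOf_eq_prime_pow h2 h3
  have hz0 : (z : ZMod q) ≠ 0 := by
    intro h0
    rw [h0] at h1
    norm_num at h1
  have h5 := ZMod.orderOf_dvd_card_sub_one hz0
  rw [h4] at h5
  norm_num at h5
  obtain ⟨t, ht⟩ := h5
  have := hq.one_lt
  omega

theorem case_c {n x m : ℕ} (hdvd : 8 ∣ m) (hm : 0 < m)
    (hx : 2 ≤ x) (h : n.factorial + x = x ^ (m + 1)) : False := by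
  obtain ⟨t, rfl⟩ := hdvd
  have ht : 1 ≤ t := by omega
  set z := x ^ t with hz
  have hz2 : 2 ≤ z := by
    calc 2 ≤ x := hx
      _ = x ^ 1 := (pow_one x).symm
      _ ≤ x ^ t := Nat.pow_le_pow_right (by omega) ht
  set Q := z ^ 4 + 1 with hQ
  have hQpos : 0 < Q := by omega
  have hdvdQ : Q ∣ n.factorial := by
    refine ⟨x * (z ^ 4 - 1), ?_⟩
    have hz4 : 1 ≤ z ^ 4 := Nat.one_le_pow _ _ (by omega)
    zify [hz4]
    have h2 : ((n.factorial : ℕ) : ℤ) + x = x ^ (8 * t + 1) := by exact_mod_cast h
    have h3 : (x : ℤ) ^ (8 * t + 1) = x * (z : ℤ) ^ 8 := by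
      rw [hz]; push_cast; rw [pow_succ, mul_comm 8 t, pow_mul]; ring
    rw [h3] at h2
    rw [hQ]; push_cast
    linear_combination h2
  have hfac : Q.factorization 2 ≤ 1 := by
    by_contra hc
    have h4 : 2 ^ 2 ∣ Q := (Nat.prime_two.pow_dvd_iff_le_factorization hQpos.ne').mpr (by omega)
    have h5 : Q % 4 = 0 := Nat.mod_eq_zero_of_dvd (by norm_num at h4; exact h4)
    rw [hQ, Nat.add_mod, Nat.pow_mod] at h5
    have : z % 4 < 4 := Nat.mod_lt _ (by norm_num)
    interval_cases z % 4 <;> simp at h5
  have hkey : Q ∣ 2 * part (fun p => p % 8 = 1) n.factorial :=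
    dvd_mul_part hdvdQ n.factorial_ne_zero Nat.prime_two (fun q hq hqd => prime_dvd_eight hq hqd) hfac
  have hb : ∀ p < 17, p.Prime → ¬ (p % 8 = 1) := by
    intro p hp hpp hmod
    have h1 : p = 1 ∨ p = 9 := by omega
    rcases h1 with rfl | rfl
    · exact Nat.not_prime_one hpp
    · revert hpp; norm_num
  by_cases hn : n < 17
  · have h1 : Real.log (part (fun p => p % 8 = 1) n.factorial) = 0 := by
      rw [log_part_factorial_eq_sum_psi]
      apply Finset.sum_eq_zero
      intro i hi
      exact psi_eq_zero hb (lt_of_le_of_lt (Nat.div_le_self _ _) hn)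
    have h2 := log_le_of_dvd (by norm_num) hQpos hkey
    rw [h1, add_zero] at h2
    have h3 : Q ≤ 2 := by
      have h4 : (Q : ℝ) ≤ (2 : ℕ) := (Real.log_le_log_iff (by positivity) (by norm_num)).mp h2
      exact_mod_cast h4
    have h4 : 2 ^ 4 ≤ z ^ 4 := Nat.pow_le_pow_left hz2 4
    omega
  · push Not at hn
    have h1 := log_le_of_dvd (by norm_num) hQpos hkey
    have h2 := log_part_le Nat.prime_two (by norm_num : (3 : ℕ) ≠ 0) (by norm_num : 8 = 2 ^ 3)
      (b := 17) (by omega) hb hn
    have hn17 : (17 : ℝ) ≤ n := by exact_mod_cast hn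
    have hlog8 : Real.log 8 = 3 * Real.log 2 := by
      rw [show (8 : ℝ) = 2 ^ 3 by norm_num, Real.log_pow]; norm_num
    have hlog17 : 4 * Real.log 2 ≤ Real.log 17 := by
      have h : Real.log ((2 : ℝ) ^ 4) ≤ Real.log 17 := Real.log_le_log (by norm_num) (by norm_num)
      rw [Real.log_pow] at h
      push_cast at h
      exact h
    have hl2 := Real.log_two_gt_d9
    have hl2' := Real.log_two_lt_d9
    have hlogn : Real.log 17 ≤ Real.log n := Real.log_le_log (by norm_num) hn17
    push_cast at h2
    rw [hlog8, Real.log_div (by positivity) (by norm_num)] at h2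
    have hst := Stirling.le_log_factorial_stirling (n := n) (by omega)
    have hlogx : 0 < Real.log x := Real.log_pos (by exact_mod_cast (by omega : 1 < x))
    have h8 : Real.log (n.factorial) ≤ (8 * t + 1) * Real.log x := by
      have h9 : (n.factorial : ℝ) ≤ (x : ℝ) ^ (8 * t + 1) := by
        have : n.factorial ≤ x ^ (8 * t + 1) := by omega
        exact_mod_cast this
      have h10 := Real.log_le_log (by positivity) h9
      rw [Real.log_pow] at h10
      push_cast at h10
      exact h10
    have h9 : 4 * t * Real.log x ≤ Real.log Q := by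
      have h10 : ((z ^ 4 : ℕ) : ℝ) ≤ Q := by exact_mod_cast (by omega : z ^ 4 ≤ Q)
      have h11 := Real.log_le_log (by positivity) h10
      rw [hz] at h11
      push_cast at h11
      rw [Real.log_pow, Real.log_pow] at h11
      push_cast at h11
      linarith
    have htR : (1 : ℝ) ≤ t := by exact_mod_cast ht
    have h10 : 4 * Real.log (n.factorial) ≤ 9 * Real.log Q := by
      have h11 : (8 * (t : ℝ) + 1) * Real.log x ≤ 9 * t * Real.log x := by
        apply mul_le_mul_of_nonneg_right _ hlogx.le
        nlinarith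
      linarith
    have hpi : 0 ≤ Real.log (2 * Real.pi) := by
      apply Real.log_nonneg
      have := Real.pi_gt_three
      linarith
    set L := Real.log (n : ℝ) with hL
    have hL2 : 2.77 ≤ L := by linarith
    have h12 : (3 * Real.log 2 + Real.log 2 / (2 - 1)) / (8 - 1) = 4 / 7 * Real.log 2 := by
      ring
    rw [h12] at h2
    have h13 : Real.log (part (fun p => p % 8 = 1) n.factorial)
        ≤ 0.39609 * (n * (1 + (L - 4 * Real.log 2))) := by
      refine h2.trans ?_
      have h14 : 0 ≤ (n : ℝ) * (1 + (L - 4 * Real.log 2)) := by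
        apply mul_nonneg (by positivity)
        linarith
      have h15 : 4 / 7 * Real.log 2 ≤ 0.39609 := by linarith
      calc 4 / 7 * Real.log 2 * (n * (1 + (L - Real.log 17)))
          ≤ 4 / 7 * Real.log 2 * (n * (1 + (L - 4 * Real.log 2))) := by
            apply mul_le_mul_of_nonneg_left _ (by linarith)
            apply mul_le_mul_of_nonneg_left _ (by positivity)
            linarith
        _ ≤ _ := mul_le_mul_of_nonneg_right h15 h14
    have hmul : 17 * L ≤ n * L := mul_le_mul_of_nonneg_right hn17 (by linarith)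
    push_cast at h1
    nlinarith

end Pool.Agent.Work.MP_86ed72_nt
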