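import Pool.Agent.Work.MP_86ed72_nt.Basic

namespace Pool.Agent.Work.MP_86ed72_nt

open Finset ArithmeticFunction

theorem count_dvd_ge {g q M : ℕ} (hq : 0 < q) (hc : g.Coprime q) :
    (M + 1) / q ≤ ((range (M + 1)).filter (fun j => q ∣ g * j + 1)).card := by
  haveI : NeZero q := ⟨hq.ne'⟩
  set a : ZMod q := -((g : ZMod q)⁻¹) with ha
  have h1 : ∀ j : ℕ, j ≡ a.val [MOD q] → q ∣ g * j + 1 := by
    intro j hj
    have h2 : ((g * j + 1 : ℕ) : ZMod q) = 0 := by
      have h3 : (j : ZMod q) = a := by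
        rw [(ZMod.natCast_eq_natCast_iff j a.val q).mpr hj, ZMod.natCast_zmod_val]
      push_cast
      rw [h3, ha, mul_neg, ZMod.coe_mul_inv_eq_one g hc]
      simp
    exact (ZMod.natCast_eq_zero_iff _ _).mp h2
  calc (M + 1) / q ≤ Nat.count (fun x => x ≡ a.val [MOD q]) (M + 1) := by
        rw [Nat.count_modEq_card _ hq]; exact Nat.le_add_right _ _
    _ = ((range (M + 1)).filter (fun x => x ≡ a.val [MOD q])).card := by
        rw [Nat.count_eq_card_filter_range]
    _ ≤ _ := by
        apply Finset.card_le_card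
        intro j hj
        rw [Finset.mem_filter] at hj ⊢
        exact ⟨hj.1, h1 j hj.2⟩

theorem log_eq_sum_dvd {N X : ℕ} (hN : 0 < N) (hX : N ≤ X) :
    Real.log N = ∑ q ∈ Ioc 0 X, if q ∣ N then vonMangoldt q else 0 := by
  rw [← vonMangoldt_sum, ← Finset.sum_filter]
  apply Finset.sum_congr _ (fun _ _ => rfl)
  ext q
  rw [Nat.mem_divisors, Finset.mem_filter, Finset.mem_Ioc]
  constructor
  · rintro ⟨h1, h2⟩
    exact ⟨⟨Nat.pos_of_dvd_of_pos h1 hN, (Nat.le_of_dvd hN h1).trans hX⟩, h1⟩
  · rintro ⟨_, h⟩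
    exact ⟨h, hN.ne'⟩

theorem sum_log_eq {g M : ℕ} (hg : 1 ≤ g) :
    ∑ j ∈ range (M + 1), Real.log ((g * j + 1 : ℕ) : ℝ)
      = ∑ q ∈ Ioc 0 (g * M + 1), vonMangoldt q *
        (((range (M + 1)).filter (fun j => q ∣ g * j + 1)).card : ℝ) := by
  have h1 : ∀ j ∈ range (M + 1), Real.log ((g * j + 1 : ℕ) : ℝ)
      = ∑ q ∈ Ioc 0 (g * M + 1), if q ∣ g * j + 1 then vonMangoldt q else 0 := by
    intro j hj
    rw [Finset.mem_range] at hj
    apply log_eq_sum_dvd (Nat.succ_pos _)
    have : g * j ≤ g * M := Nat.mul_le_mul_left g (by omega)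
    omega
  rw [Finset.sum_congr rfl h1, Finset.sum_comm]
  apply Finset.sum_congr rfl
  intro q _
  rw [← Finset.sum_filter, Finset.sum_const, nsmul_eq_mul, mul_comm]

theorem sum_log_le {g M : ℕ} (hg : 1 ≤ g) :
    ∑ j ∈ range (M + 1), Real.log ((g * j + 1 : ℕ) : ℝ)
      ≤ M * Real.log g + Real.log ((M + 1).factorial : ℝ) := by
  induction M with
  | zero => simp
  | succ M ih =>
    rw [Finset.sum_range_succ]
    have h1 : Real.log ((g * (M + 1) + 1 : ℕ) : ℝ) ≤ Real.log g + Real.log ((M + 1 + 1 : ℕ) : ℝ) := by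
      rw [← Real.log_mul (by positivity) (by positivity)]
      apply Real.log_le_log (by positivity)
      have : g * (M + 1) + 1 ≤ g * (M + 1 + 1) := by
        have : g * (M + 1 + 1) = g * (M + 1) + g := by ring
        omega
      exact_mod_cast this
    have h2 : Real.log ((M + 1 + 1).factorial : ℝ)
        = Real.log ((M + 1 + 1 : ℕ) : ℝ) + Real.log ((M + 1).factorial : ℝ) := by
      rw [Nat.factorial_succ (M + 1)]
      push_cast
      rw [Real.log_mul (by positivity) (by positivity)]
    rw [h2]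
    push_cast at *
    linarith

theorem log_factorial_eq_sum (n X : ℕ) (hX : n ≤ X) :
    Real.log (n.factorial : ℝ) = ∑ q ∈ Ioc 0 X, vonMangoldt q * ((n / q : ℕ) : ℝ) := by
  have h1 : part (fun _ => True) n.factorial = n.factorial := by
    unfold part
    have : Finsupp.filter (fun _ => True) n.factorial.factorization = n.factorial.factorization := by
      ext p; simp [Finsupp.filter_apply]
    rw [this]
    exact Nat.prod_factorization_pow_eq_self n.factorial_ne_zero
  have h2 := log_part_factorial_eq_sum (fun _ => True) n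
  rw [h1] at h2
  rw [h2]
  have h3 : Ioc 0 n ⊆ Ioc 0 X := Finset.Ioc_subset_Ioc_right hX
  rw [← Finset.sum_subset h3]
  · apply Finset.sum_congr rfl
    intro q _
    rw [lam_apply]; simp
  · intro q hq hq'
    rw [Finset.mem_Ioc] at hq hq'
    rw [Nat.div_eq_of_lt (by omega)]; simp

theorem part_eq_pow {r N : ℕ} (hr : r.Prime) (hN : N ≠ 0) :
    part (fun p => p = r) N = r ^ N.factorization r := by
  apply Nat.eq_of_factorization_eq (part_ne_zero _ _) (pow_ne_zero _ hr.ne_zero)
  intro p
  rw [part_factorization, Finsupp.filter_apply, hr.factorization_pow]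
  by_cases h : p = r
  · subst h; simp
  · rw [if_neg h, Finsupp.single_apply, if_neg (Ne.symm h)]

theorem log_part_eq_le {r M : ℕ} (hr : r.Prime) :
    Real.log (part (fun p => p = r) (M + 1).factorial) ≤ M * (Real.log r / (r - 1)) := by
  rw [part_eq_pow hr (Nat.factorial_ne_zero _)]
  push_cast
  rw [Real.log_pow]
  haveI : Fact r.Prime := ⟨hr⟩
  have h1 := sub_one_mul_padicValNat_factorial (p := r) (M + 1)
  have h2 : (M + 1).factorial.factorization r = padicValNat r (M + 1).factorial :=
    Nat.factorization_def _ hr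
  have h3 : 1 ≤ (r.digits (M + 1)).sum := by
    by_contra h
    have h0 : (r.digits (M + 1)).sum = 0 := by omega
    have h4 : ∀ d ∈ r.digits (M + 1), d = 0 := by
      intro d hd
      exact (List.sum_eq_zero_iff.mp h0) d hd
    have h5 := Nat.getLast_digit_ne_zero r (Nat.succ_ne_zero M)
    exact h5 (h4 _ (List.getLast_mem _))
  have h4 : (r - 1) * padicValNat r (M + 1).factorial ≤ M := by omega
  have hr1 : (1 : ℝ) < r := by exact_mod_cast hr.one_lt
  have h5 : ((r : ℝ) - 1) * (padicValNat r (M + 1).factorial : ℝ) ≤ M := by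
    have : (((r - 1 : ℕ) : ℝ)) = (r : ℝ) - 1 := by
      rw [Nat.cast_sub hr.one_lt.le]; simp
    rw [← this]
    exact_mod_cast h4
  rw [h2]
  have hlog : 0 < Real.log r := Real.log_pos hr1
  rw [mul_div_assoc', le_div_iff₀ (by linarith)]
  nlinarith

variable {g r e : ℕ}

theorem isPrimePow_mod {g q : ℕ} (hg : 2 ≤ g) (h : IsPrimePow q) (h1 : q.minFac % g = 1) :
    q % g = 1 := by
  obtain ⟨p, k, hp, hk, rfl⟩ := h
  rw [hp.nat_prime.pow_minFac hk.ne'] at h1
  rw [Nat.pow_mod, h1, one_pow, Nat.mod_eq_of_lt (by omega)]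

theorem lam_mod_ne_zero {g q : ℕ} (hg : 2 ≤ g) (h : lam (fun p => p % g = 1) q ≠ 0) :
    q % g = 1 ∧ 1 < q := by
  rw [lam_apply] at h
  split_ifs at h with h1
  · have h2 : IsPrimePow q := vonMangoldt_ne_zero_iff.mp h
    exact ⟨isPrimePow_mod hg h2 h1, h2.one_lt⟩
  · exact absurd rfl h

/-- Pointwise inequality. -/
theorem pointwise (hr : r.Prime) (he : e ≠ 0) (hg : g = r ^ e) (M q : ℕ)
    (hq : q ∈ Ioc 0 (g * M + 1)) :
    (if M + 1 < q then lam (fun p => p % g = 1) q else 0) ≤
      vonMangoldt q * (((range (M + 1)).filter (fun j => q ∣ g * j + 1)).card : ℝ)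
      - vonMangoldt q * (((M + 1) / q : ℕ) : ℝ)
      + lam (fun p => p = r) q * (((M + 1) / q : ℕ) : ℝ) := by
  have hg2 : 2 ≤ g := by
    rw [hg]; exact hr.two_le.trans (Nat.le_self_pow he r)
  rw [Finset.mem_Ioc] at hq
  have hΛ : (0 : ℝ) ≤ vonMangoldt q := vonMangoldt_nonneg
  by_cases hpp : IsPrimePow q
  swap
  · have h0 : vonMangoldt q = 0 := vonMangoldt_eq_zero' hpp
    have h1 : lam (fun p => p % g = 1) q = 0 := by rw [lam_apply, h0]; simp
    have h2 : lam (fun p => p = r) q = 0 := by rw [lam_apply, h0]; simp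
    rw [h0, h1, h2]; simp
  have hpr : q.minFac.Prime := Nat.minFac_prime hpp.one_lt.ne'
  by_cases hqr : q.minFac = r
  · have h1 : lam (fun p => p % g = 1) q = 0 := by
      rw [lam_apply, if_neg]
      rw [hqr]
      intro h
      have h2 : r ∣ g := by rw [hg]; exact dvd_pow_self r he
      have h3 : r ∣ r % g := (Nat.dvd_mod_iff h2).mpr dvd_rfl
      rw [h] at h3
      exact hr.one_lt.ne' (Nat.dvd_one.mp h3)
    have h2 : lam (fun p => p = r) q = vonMangoldt q := by rw [lam_apply, if_pos hqr]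
    rw [h1, h2]
    simp only [ite_self]
    have : (0 : ℝ) ≤ vonMangoldt q * (((range (M + 1)).filter (fun j => q ∣ g * j + 1)).card : ℝ) := by
      positivity
    linarith
  · have h2 : lam (fun p => p = r) q = 0 := by rw [lam_apply, if_neg hqr]
    have hcop : g.Coprime q := by
      obtain ⟨p, k, hp, hk, rfl⟩ := hpp
      rw [hp.nat_prime.pow_minFac hk.ne'] at hqr
      rw [hg]
      exact Nat.Coprime.pow _ _ ((Nat.coprime_primes hr hp.nat_prime).mpr (Ne.symm hqr))
    have hcnt := count_dvd_ge (M := M) hq.1 hcop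
    rw [h2, zero_mul, add_zero]
    by_cases hM : M + 1 < q
    · rw [if_pos hM, Nat.div_eq_of_lt hM]
      simp only [Nat.cast_zero, mul_zero, sub_zero]
      by_cases hP : q.minFac % g = 1
      · have h3 : lam (fun p => p % g = 1) q = vonMangoldt q := by rw [lam_apply, if_pos hP]
        rw [h3]
        have h4 := isPrimePow_mod hg2 hpp hP
        have h5 : 1 ≤ ((range (M + 1)).filter (fun j => q ∣ g * j + 1)).card := by
          rw [Nat.one_le_iff_ne_zero, Finset.card_ne_zero]
          refine ⟨q / g, ?_⟩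
          rw [Finset.mem_filter, Finset.mem_range]
          have h6 := Nat.div_add_mod q g
          rw [h4] at h6
          constructor
          · by_contra h7
            have h8 : g * (M + 1) ≤ g * (q / g) := Nat.mul_le_mul_left g (by omega)
            have h9 : g * (M + 1) = g * M + g := by ring
            omega
          · rw [h6]
        have h6 : (1 : ℝ) ≤ (((range (M + 1)).filter (fun j => q ∣ g * j + 1)).card : ℝ) := by
          exact_mod_cast h5
        nlinarith
      · rw [lam_apply, if_neg hP]; positivity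
    · rw [if_neg hM]
      have h6 : (((M + 1) / q : ℕ) : ℝ)
          ≤ (((range (M + 1)).filter (fun j => q ∣ g * j + 1)).card : ℝ) := by
        exact_mod_cast hcnt
      nlinarith

theorem psi_step (hr : r.Prime) (he : e ≠ 0) (hg : g = r ^ e) (M : ℕ) :
    psi (fun p => p % g = 1) (g * M + 1) ≤ psi (fun p => p % g = 1) (M + 1)
      + (Real.log g + Real.log r / (r - 1)) * M := by
  have hg2 : 2 ≤ g := by
    rw [hg]; exact hr.two_le.trans (Nat.le_self_pow he r)
  have hMX : M + 1 ≤ g * M + 1 := by nlinarith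
  have h1 := Finset.sum_le_sum (pointwise hr he hg M)
  rw [Finset.sum_add_distrib, Finset.sum_sub_distrib, ← sum_log_eq (by omega),
    ← log_factorial_eq_sum (M + 1) _ hMX] at h1
  have h2 : ∑ q ∈ Ioc 0 (g * M + 1), lam (fun p => p = r) q * (((M + 1) / q : ℕ) : ℝ)
      = Real.log (part (fun p => p = r) (M + 1).factorial) := by
    rw [log_part_factorial_eq_sum]
    symm
    apply Finset.sum_subset (Finset.Ioc_subset_Ioc_right hMX)
    intro q hq hq'
    rw [Finset.mem_Ioc] at hq hq'
    rw [Nat.div_eq_of_lt (by omega)]; simp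
  rw [h2] at h1
  have h3 : ∑ q ∈ Ioc 0 (g * M + 1), (if M + 1 < q then lam (fun p => p % g = 1) q else 0)
      = psi (fun p => p % g = 1) (g * M + 1) - psi (fun p => p % g = 1) (M + 1) := by
    unfold psi
    rw [eq_sub_iff_add_eq, ← Finset.sum_filter]
    have h4 : (Ioc 0 (g * M + 1)).filter (fun q => M + 1 < q) = Ioc (M + 1) (g * M + 1) := by
      ext q; simp only [Finset.mem_filter, Finset.mem_Ioc]; omega
    rw [h4, add_comm]
    exact Finset.sum_Ioc_consecutive _ (Nat.zero_le _) hMX
  rw [h3] at h1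
  have h4 := sum_log_le (g := g) (M := M) (by omega)
  have h5 := log_part_eq_le (M := M) hr
  have h6 : (Real.log g + Real.log r / (r - 1)) * M
      = M * Real.log g + M * (Real.log r / (r - 1)) := by ring
  rw [h6]
  linarith

theorem psi_reduce (hg : 2 ≤ g) {y : ℕ} (hy : 1 ≤ y) :
    psi (fun p => p % g = 1) y = psi (fun p => p % g = 1) (g * ((y - 1) / g) + 1) := by
  have h0 : g * ((y - 1) / g) + 1 ≤ y := by
    have := Nat.mul_div_le (y - 1) g
    omega
  unfold psi
  rw [← Finset.sum_Ioc_consecutive _ (Nat.zero_le _) h0]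
  have : ∑ q ∈ Ioc (g * ((y - 1) / g) + 1) y, lam (fun p => p % g = 1) q = 0 := by
    apply Finset.sum_eq_zero
    intro q hq
    rw [Finset.mem_Ioc] at hq
    by_contra h
    have h1 := (lam_mod_ne_zero hg h).1
    have h2 := Nat.div_add_mod q g
    have h3 := Nat.div_add_mod (y - 1) g
    have h4 : (y - 1) % g < g := Nat.mod_lt _ (by omega)
    rw [h1] at h2
    have h5 : (y - 1) / g < q / g := by
      by_contra h6
      have : g * (q / g) ≤ g * ((y - 1) / g) := Nat.mul_le_mul_left g (by omega)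
      omega
    have h7 : g * ((y - 1) / g + 1) ≤ g * (q / g) := Nat.mul_le_mul_left g h5
    have h8 : g * ((y - 1) / g + 1) = g * ((y - 1) / g) + g := by ring
    omega
  rw [this, add_zero]

theorem psi_le (hr : r.Prime) (he : e ≠ 0) (hg : g = r ^ e) {y : ℕ} (hy : 1 ≤ y) :
    psi (fun p => p % g = 1) y
      ≤ (Real.log g + Real.log r / (r - 1)) / (g - 1) * (y - 1) := by
  have hg2 : 2 ≤ g := by
    rw [hg]; exact hr.two_le.trans (Nat.le_self_pow he r)
  have hg1 : (1 : ℝ) < g := by exact_mod_cast (by omega : 1 < g)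
  have hr1 : (1 : ℝ) < r := by exact_mod_cast hr.one_lt
  set κ := Real.log g + Real.log r / (r - 1) with hκ
  have hκ0 : 0 ≤ κ := by
    have h1 := Real.log_pos hg1
    have h2 := Real.log_pos hr1
    have h3 : 0 < (r : ℝ) - 1 := by linarith
    positivity
  induction y using Nat.strong_induction_on with
  | _ y ih =>
    rw [psi_reduce hg2 hy]
    set M := (y - 1) / g with hM
    have h0 : g * M + 1 ≤ y := by
      have h := Nat.mul_div_le (y - 1) g
      rw [← hM] at h
      omega
    have h0' : (g : ℝ) * M ≤ y - 1 := by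
      have : ((g * M + 1 : ℕ) : ℝ) ≤ y := by exact_mod_cast h0
      push_cast at this
      linarith
    rcases Nat.eq_zero_or_pos M with hM0 | hM0
    · rw [hM0]
      have : psi (fun p => p % g = 1) (g * 0 + 1) = 0 := by
        unfold psi
        simp [lam_apply]
      rw [this]
      have : (1 : ℝ) ≤ y := by exact_mod_cast hy
      have h3 : 0 < (g : ℝ) - 1 := by linarith
      have h4 : 0 ≤ (y : ℝ) - 1 := by linarith
      positivity
    · have h1 := psi_step hr he hg M
      have h2 : M + 1 < y := by nlinarith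
      have h3 := ih (M + 1) h2 (by omega)
      have h4 : 0 < (g : ℝ) - 1 := by linarith
      push_cast at h3
      rw [add_sub_cancel_right] at h3
      calc psi (fun p => p % g = 1) (g * M + 1) ≤ κ / (g - 1) * M + κ * M := by linarith
        _ = κ / (g - 1) * (g * M) := by field_simp; ring
        _ ≤ κ / (g - 1) * (y - 1) := by
            apply mul_le_mul_of_nonneg_left h0'
            positivity

/-- `psi` vanishes below the first prime `≡ 1 mod g`. -/
theorem psi_eq_zero {P : ℕ → Prop} [DecidablePred P] {b y : ℕ} (hb : ∀ p < b, p.Prime → ¬ P p)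
    (hy : y < b) : psi P y = 0 := by
  unfold psi
  apply Finset.sum_eq_zero
  intro q hq
  rw [Finset.mem_Ioc] at hq
  rw [lam_apply]
  split_ifs with h
  · by_contra h2
    have h3 : IsPrimePow q := vonMangoldt_ne_zero_iff.mp h2
    have h4 := Nat.minFac_prime h3.one_lt.ne'
    have h5 : q.minFac ≤ q := Nat.minFac_le hq.1
    exact hb _ (by omega) h4 h
  · rfl

/-- The final Chebyshev-type bound. -/
theorem log_part_le (hr : r.Prime) (he : e ≠ 0) (hg : g = r ^ e) {b : ℕ} (hb1 : 1 ≤ b)
    (hb : ∀ p < b, p.Prime → ¬ (p % g = 1)) {n : ℕ} (hn : b ≤ n) :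
    Real.log (part (fun p => p % g = 1) n.factorial)
      ≤ (Real.log g + Real.log r / (r - 1)) / (g - 1) * (n * (1 + Real.log (n / b))) := by
  have hg2 : 2 ≤ g := by
    rw [hg]; exact hr.two_le.trans (Nat.le_self_pow he r)
  have hg1 : (1 : ℝ) < g := by exact_mod_cast (by omega : 1 < g)
  have hr1 : (1 : ℝ) < r := by exact_mod_cast hr.one_lt
  set c := (Real.log g + Real.log r / (r - 1)) / (g - 1) with hc
  have hc0 : 0 ≤ c := by
    have h1 := Real.log_pos hg1
    have h2 := Real.log_pos hr1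
    have h3 : 0 < (r : ℝ) - 1 := by linarith
    have h4 : 0 < (g : ℝ) - 1 := by linarith
    positivity
  rw [log_part_factorial_eq_sum_psi]
  have hKn : n / b ≤ n := Nat.div_le_self _ _
  rw [← Finset.sum_Ioc_consecutive _ (Nat.zero_le _) hKn]
  have h0 : ∑ i ∈ Ioc (n / b) n, psi (fun p => p % g = 1) (n / i) = 0 := by
    apply Finset.sum_eq_zero
    intro i hi
    rw [Finset.mem_Ioc] at hi
    apply psi_eq_zero hb
    have hi0 : 0 < i := lt_of_le_of_lt (Nat.zero_le _) hi.1
    rw [Nat.div_lt_iff_lt_mul hi0]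
    have := Nat.lt_mul_of_div_lt hi.1 (by omega)
    linarith
  rw [h0, add_zero]
  have hn0 : 0 < n := by omega
  have h1 : ∀ i ∈ Ioc 0 (n / b), psi (fun p => p % g = 1) (n / i) ≤ c * n * (1 / (i : ℝ)) := by
    intro i hi
    rw [Finset.mem_Ioc] at hi
    have hi1 : 1 ≤ n / i := by
      rw [Nat.one_le_div_iff (by omega)]
      exact hi.2.trans hKn
    have h2 := psi_le hr he hg hi1
    have h3 : ((n / i : ℕ) : ℝ) ≤ n / i := Nat.cast_div_le
    calc psi (fun p => p % g = 1) (n / i) ≤ c * (((n / i : ℕ) : ℝ) - 1) := h2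
      _ ≤ c * (n / i) := by
          apply mul_le_mul_of_nonneg_left _ hc0
          linarith
      _ = c * n * (1 / (i : ℝ)) := by ring
  refine (Finset.sum_le_sum h1).trans ?_
  rw [← Finset.mul_sum]
  have h2 : ∑ i ∈ Ioc 0 (n / b), (1 / (i : ℝ)) = ((harmonic (n / b) : ℚ) : ℝ) := by
    rw [harmonic_eq_sum_Icc]
    push_cast
    apply Finset.sum_congr
    · ext x; simp only [Finset.mem_Ioc, Finset.mem_Icc]; omega
    · intro x _; rw [one_div]
  rw [h2, mul_assoc]
  apply mul_le_mul_of_nonneg_left _ hc0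
  apply mul_le_mul_of_nonneg_left _ (Nat.cast_nonneg n)
  refine (harmonic_le_one_add_log _).trans ?_
  have h3 : 1 ≤ n / b := by rw [Nat.one_le_div_iff (by omega)]; exact hn
  have h4 : Real.log ((n / b : ℕ) : ℝ) ≤ Real.log (n / b) := by
    apply Real.log_le_log (by exact_mod_cast h3)
    exact Nat.cast_div_le
  linarith

end Pool.Agent.Work.MP_86ed72_nt
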