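import Pool.Agent.Work.MP_86ed72_nt.CaseA

namespace Pool.Agent.Work.MP_86ed72_nt

open Finset ArithmeticFunction

/-- The nonprincipal character mod 3. -/
noncomputable def chi : ArithmeticFunction ℝ :=
  ⟨fun n => if n % 3 = 1 then 1 else if n % 3 = 2 then -1 else 0, by simp⟩

theorem chi_apply (n : ℕ) : chi n = if n % 3 = 1 then 1 else if n % 3 = 2 then -1 else 0 := rfl

theorem chi_mul (a b : ℕ) : chi (a * b) = chi a * chi b := by
  rw [chi_apply, chi_apply, chi_apply, Nat.mul_mod]
  have ha : a % 3 < 3 := Nat.mod_lt _ (by norm_num)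
  have hb : b % 3 < 3 := Nat.mod_lt _ (by norm_num)
  interval_cases a % 3 <;> interval_cases b % 3 <;> simp

theorem chi_one : chi 1 = 1 := by rw [chi_apply]; simp

theorem pmul_chi_mul (f g : ArithmeticFunction ℝ) :
    pmul chi (f * g) = pmul chi f * pmul chi g := by
  ext n
  rw [pmul_apply, mul_apply, mul_apply, Finset.mul_sum]
  apply Finset.sum_congr rfl
  intro x hx
  rw [Nat.mem_divisorsAntidiagonal] at hx
  rw [pmul_apply, pmul_apply, ← hx.1, chi_mul]
  ring

noncomputable def chiL : ArithmeticFunction ℝ := pmul chi vonMangoldt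
noncomputable def chimu : ArithmeticFunction ℝ := pmul chi (moebius : ArithmeticFunction ℝ)
noncomputable def cc : ArithmeticFunction ℝ := chimu * (zeta : ArithmeticFunction ℝ)
noncomputable def chilog : ArithmeticFunction ℝ := pmul chi log

theorem pmul_chi_zeta : pmul chi (zeta : ArithmeticFunction ℝ) = chi := by
  ext n
  rw [pmul_apply, natCoe_apply, zeta_apply]
  split_ifs with h
  · subst h; simp
  · simp

theorem chimu_mul_chi : chimu * chi = 1 := by
  have h : chimu * chi = pmul chi ((moebius : ArithmeticFunction ℝ) * (zeta : ArithmeticFunction ℝ)) := by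
    rw [pmul_chi_mul, pmul_chi_zeta]; rfl
  rw [h, coe_moebius_mul_coe_zeta]
  ext n
  rw [pmul_apply, one_apply]
  split_ifs with h
  · subst h; rw [chi_one]; simp
  · simp

theorem chiL_mul_chi : chiL * chi = chilog := by
  have h : chiL * chi = pmul chi (vonMangoldt * (zeta : ArithmeticFunction ℝ)) := by
    rw [pmul_chi_mul, pmul_chi_zeta]; rfl
  rw [h, vonMangoldt_mul_zeta]; rfl

theorem cc_mul_chi : cc * chi = (zeta : ArithmeticFunction ℝ) := by
  unfold cc
  rw [mul_assoc, mul_comm _ chi, ← mul_assoc, chimu_mul_chi, one_mul]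

theorem cc_mul_chilog : cc * chilog = chiL * (zeta : ArithmeticFunction ℝ) := by
  rw [← chiL_mul_chi]
  unfold cc
  calc chimu * (zeta : ArithmeticFunction ℝ) * (chiL * chi)
      = (chimu * chi) * (chiL * (zeta : ArithmeticFunction ℝ)) := by ring
    _ = _ := by rw [chimu_mul_chi, one_mul]

theorem isMultiplicative_chi : IsMultiplicative chi :=
  ⟨chi_one, fun _ => chi_mul _ _⟩

theorem isMultiplicative_cc : IsMultiplicative cc := by
  unfold cc chimu
  exact (isMultiplicative_chi.pmul isMultiplicative_moebius.intCast).mul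
    isMultiplicative_zeta.natCast

theorem cc_prime_pow {p k : ℕ} (hp : p.Prime) (hk : k ≠ 0) : cc (p ^ k) = 1 - chi p := by
  unfold cc chimu
  rw [coe_mul_zeta_apply, Nat.sum_divisors_prime_pow hp]
  obtain ⟨j, rfl⟩ := Nat.exists_eq_succ_of_ne_zero hk
  rw [Finset.sum_range_succ', Finset.sum_range_succ']
  have h0 : ∑ i ∈ range j, (pmul chi (moebius : ArithmeticFunction ℝ)) (p ^ (i + 1 + 1)) = 0 := by
    apply Finset.sum_eq_zero
    intro i _
    rw [pmul_apply, intCoe_apply, moebius_apply_prime_pow hp (by omega)]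
    simp
  rw [h0]
  simp only [zero_add, pow_one, pow_zero]
  rw [pmul_apply, pmul_apply, intCoe_apply, intCoe_apply, moebius_apply_prime hp, chi_one]
  simp
  ring

theorem chi_le_one (n : ℕ) : chi n ≤ 1 := by
  rw [chi_apply]; split_ifs <;> norm_num

theorem neg_one_le_chi (n : ℕ) : -1 ≤ chi n := by
  rw [chi_apply]; split_ifs <;> norm_num

theorem cc_nonneg (n : ℕ) : 0 ≤ cc n := by
  rcases Nat.eq_zero_or_pos n with rfl | hn
  · simp
  rw [isMultiplicative_cc.multiplicative_factorization _ hn.ne']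
  apply Finset.prod_nonneg
  intro p hp
  have hp' := Nat.prime_of_mem_primeFactors hp
  have hk : n.factorization p ≠ 0 := Finsupp.mem_support_iff.mp hp
  show 0 ≤ cc (p ^ n.factorization p)
  rw [cc_prime_pow hp' hk]
  linarith [chi_le_one p]

theorem sum_chi (y : ℕ) : ∑ d ∈ Ioc 0 y, chi d = if y % 3 = 1 then 1 else 0 := by
  induction y with
  | zero => simp
  | succ y ih =>
    rw [← Finset.insert_Ioc_right_eq_Ioc_add_one (Nat.zero_le y), Finset.sum_insert (by simp), ih,
      chi_apply]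
    have : y % 3 = 0 ∨ y % 3 = 1 ∨ y % 3 = 2 := by omega
    rcases this with h | h | h
    · have h2 : (y + 1) % 3 = 1 := by omega
      simp [h, h2]
    · have h2 : (y + 1) % 3 = 2 := by omega
      simp [h, h2]
    · have h2 : (y + 1) % 3 = 0 := by omega
      simp [h, h2]

/-- `∑_{j ≤ n} c_j S(n/j) = n`. -/
theorem sum_cc (n : ℕ) : ∑ j ∈ Ioc 0 n, cc j * (if (n / j) % 3 = 1 then 1 else 0) = n := by
  have h := sum_Ioc_mul_eq_sum_sum cc chi n
  rw [cc_mul_chi] at h
  have h2 : ∑ N ∈ Ioc 0 n, (zeta : ArithmeticFunction ℝ) N = n := by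
    have := sum_Ioc_zeta n
    have h3 : ((∑ N ∈ Ioc 0 n, zeta N : ℕ) : ℝ) = n := by rw [this]
    push_cast at h3
    simpa [natCoe_apply] using h3
  rw [h2] at h
  rw [h]
  apply Finset.sum_congr rfl
  intro j _
  rw [sum_chi]

noncomputable def LL (y : ℕ) : ℝ := ∑ d ∈ Ioc 0 y, chilog d

noncomputable def TT (n : ℕ) : ℝ := ∑ q ∈ Ioc 0 n, chiL q * ((n / q : ℕ) : ℝ)

theorem TT_eq (n : ℕ) : TT n = ∑ j ∈ Ioc 0 n, cc j * LL (n / j) := by
  have h := sum_Ioc_mul_eq_sum_sum cc chilog n
  rw [cc_mul_chilog, sum_Ioc_mul_zeta_eq_sum] at h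
  exact h

theorem LL_succ (y : ℕ) : LL (y + 1) = LL y + chi (y + 1) * Real.log (y + 1) := by
  unfold LL
  rw [← Finset.insert_Ioc_right_eq_Ioc_add_one (Nat.zero_le y), Finset.sum_insert (by simp)]
  unfold chilog
  rw [pmul_apply, log_apply]
  push_cast
  ring

theorem LL_zero : LL 0 = 0 := by simp [LL]

theorem LL_one : LL 1 = 0 := by
  have := LL_succ 0
  rw [LL_zero] at this
  simpa using this

theorem LL_step (i : ℕ) : LL (3 * i + 4) = LL (3 * i + 1) - Real.log (3 * i + 2)
    + Real.log (3 * i + 4) := by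
  have h1 := LL_succ (3 * i + 1)
  have h2 := LL_succ (3 * i + 1 + 1)
  have h3 := LL_succ (3 * i + 1 + 1 + 1)
  have c1 : chi (3 * i + 1 + 1) = -1 := by
    rw [chi_apply, if_neg (by omega), if_pos (by omega)]
  have c2 : chi (3 * i + 1 + 1 + 1) = 0 := by
    rw [chi_apply, if_neg (by omega), if_neg (by omega)]
  have c3 : chi (3 * i + 1 + 1 + 1 + 1) = 1 := by
    rw [chi_apply, if_pos (by omega)]
  rw [c1] at h1
  rw [c2] at h2
  rw [c3] at h3
  have e : 3 * i + 4 = 3 * i + 1 + 1 + 1 + 1 := by ring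
  rw [e, h3, h2, h1]
  push_cast
  have e1 : (3 : ℝ) * i + 1 + 1 = 3 * i + 2 := by ring
  have e2 : (3 : ℝ) * i + 2 + 1 + 1 = 3 * i + 4 := by ring
  rw [e1, e2]
  ring

theorem LL_bound_one (i : ℕ) (hi : 1 ≤ i) : LL (3 * i + 1) ≤ Real.log ((3 * i + 1) / 2) := by
  induction i, hi using Nat.le_induction with
  | base =>
    have h := LL_step 0
    simp only [mul_zero, zero_add] at h
    rw [show 3 * 1 + 1 = 4 by norm_num, h, LL_one]
    norm_num
    rw [show (4 : ℝ) = 2 ^ 2 by norm_num, Real.log_pow]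
    norm_num
    linarith
  | succ i hi ih =>
    have h := LL_step i
    rw [show 3 * (i + 1) + 1 = 3 * i + 4 by ring, h]
    push_cast
    have e : ((3 : ℝ) * (i + 1) + 1) = 3 * i + 4 := by ring
    rw [e]
    rw [Real.log_div (by positivity) (by norm_num)] at ih ⊢
    have h2 : Real.log (3 * i + 1) ≤ Real.log (3 * i + 2) :=
      Real.log_le_log (by positivity) (by linarith)
    linarith

/-- Values of `LL` off the residue 1. -/
theorem LL_off (y : ℕ) (hy : y % 3 ≠ 1) : LL y ≤ 0 := by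
  rcases Nat.eq_zero_or_pos y with rfl | hpos
  · rw [LL_zero]
  have hy' : y % 3 = 2 ∨ y % 3 = 0 := by omega
  have key : ∀ i : ℕ, LL (3 * i + 2) ≤ 0 := by
    intro i
    have h1 := LL_succ (3 * i + 1)
    have c1 : chi (3 * i + 1 + 1) = -1 := by
      rw [chi_apply, if_neg (by omega), if_pos (by omega)]
    rw [c1] at h1
    rw [show 3 * i + 2 = 3 * i + 1 + 1 by ring, h1]
    rcases Nat.eq_zero_or_pos i with rfl | hi
    · simp only [mul_zero, zero_add]
      rw [LL_one]
      push_cast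
      have : 0 ≤ Real.log (1 + 1) := Real.log_nonneg (by norm_num)
      linarith
    · have h2 := LL_bound_one i hi
      rw [Real.log_div (by positivity) (by norm_num)] at h2
      push_cast
      have h3 : Real.log (3 * i + 1) ≤ Real.log (3 * i + 1 + 1) :=
        Real.log_le_log (by positivity) (by linarith)
      have h4 : 0 ≤ Real.log 2 := Real.log_nonneg (by norm_num)
      linarith
  rcases hy' with h | h
  · have e : y = 3 * (y / 3) + 2 := by omega
    rw [e]; exact key _
  · have e : y = 3 * (y / 3 - 1) + 2 + 1 := by omega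
    have h1 := LL_succ (3 * (y / 3 - 1) + 2)
    have c1 : chi (3 * (y / 3 - 1) + 2 + 1) = 0 := by
      rw [chi_apply, if_neg (by omega), if_neg (by omega)]
    rw [e, h1, c1, zero_mul, add_zero]
    exact key _

/-- The dyadic bound function. -/
noncomputable def hh (s : ℕ) : ℝ :=
  if s ≤ 1 then 0 else if s = 2 then 3 / 2 * Real.log 2 else
    if s = 3 then 33 / 16 * Real.log 2 else s * Real.log 2

theorem hh_nonneg (s : ℕ) : 0 ≤ hh s := by
  have h4 : 0 ≤ Real.log 2 := Real.log_nonneg (by norm_num)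
  unfold hh
  split_ifs
  · exact le_rfl
  · positivity
  · positivity
  · positivity

theorem LL_le_hh (y : ℕ) (hy : 1 ≤ y) : LL y ≤ hh (Nat.log 2 y) := by
  by_cases h1 : y % 3 = 1
  swap
  · exact (LL_off y h1).trans (hh_nonneg _)
  have hl2 := Real.log_two_gt_d9
  have hl2' := Real.log_two_lt_d9
  have v1 := LL_step 0
  have v2 := LL_step 1
  have v3 := LL_step 2
  have v4 := LL_step 3
  norm_num at v1 v2 v3 v4
  rw [LL_one] at v1
  have l4 : Real.log 4 = 2 * Real.log 2 := by
    rw [show (4 : ℝ) = 2 ^ 2 by norm_num, Real.log_pow]; norm_num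
  have l8 : Real.log 8 = 3 * Real.log 2 := by
    rw [show (8 : ℝ) = 2 ^ 3 by norm_num, Real.log_pow]; norm_num
  have b7 : LL 7 ≤ 3 / 2 * Real.log 2 := by
    rw [v2, v1, l4]
    have h : Real.log ((7 : ℝ) ^ 2) ≤ Real.log ((5 : ℝ) ^ 2 * 2) :=
      Real.log_le_log (by norm_num) (by norm_num)
    rw [Real.log_mul (by norm_num) (by norm_num), Real.log_pow, Real.log_pow] at h
    push_cast at h
    linarith
  have b10 : LL 10 ≤ 2 * Real.log 2 := by
    rw [v3, l8]
    have h : Real.log (10 : ℝ) ≤ Real.log ((2 : ℝ) ^ 3 * (5 / 4)) :=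
      Real.log_le_log (by norm_num) (by norm_num)
    have h' : Real.log ((5 / 4 : ℝ) ^ 2) ≤ Real.log 2 :=
      Real.log_le_log (by norm_num) (by norm_num)
    rw [Real.log_mul (by norm_num) (by norm_num), Real.log_pow] at h
    rw [Real.log_pow] at h'
    push_cast at h h'
    linarith
  have b13 : LL 13 ≤ 33 / 16 * Real.log 2 := by
    rw [v4, v3, v2, v1, l4, l8]
    have h : Real.log ((7 * 10 * 13 : ℝ) ^ 16) ≤ Real.log ((5 * 11 : ℝ) ^ 16 * 2 ^ 65) :=
      Real.log_le_log (by norm_num) (by norm_num)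
    rw [Real.log_mul (by norm_num) (by norm_num), Real.log_pow, Real.log_pow, Real.log_pow,
      Real.log_mul (by norm_num) (by norm_num), Real.log_mul (by norm_num) (by norm_num),
      Real.log_mul (by norm_num) (by norm_num)] at h
    push_cast at h
    linarith
  by_cases hy4 : y < 4
  · have : y = 1 := by omega
    subst this
    rw [LL_one]; exact hh_nonneg _
  by_cases hy8 : y < 8
  · have hlog : Nat.log 2 y = 2 := by
      rw [Nat.log_eq_iff (by norm_num)]; constructor <;> norm_num <;> omega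
    rw [hlog]
    have : y = 4 ∨ y = 7 := by omega
    unfold hh
    norm_num
    rcases this with rfl | rfl
    · rw [v1, l4]; linarith
    · exact b7
  by_cases hy16 : y < 16
  · have hlog : Nat.log 2 y = 3 := by
      rw [Nat.log_eq_iff (by norm_num)]; constructor <;> norm_num <;> omega
    rw [hlog]
    have : y = 10 ∨ y = 13 := by omega
    unfold hh
    norm_num
    rcases this with rfl | rfl
    · linarith
    · exact b13
  · have hlog : 4 ≤ Nat.log 2 y := by
      apply Nat.le_log_of_pow_le (by norm_num); norm_num; omega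
    have hhv : hh (Nat.log 2 y) = Nat.log 2 y * Real.log 2 := by
      unfold hh
      rw [if_neg (by omega), if_neg (by omega), if_neg (by omega)]
    rw [hhv]
    have e : y = 3 * (y / 3) + 1 := by omega
    have h2 := LL_bound_one (y / 3) (by omega)
    rw [← e] at h2
    have e' : ((3 : ℝ) * ((y / 3 : ℕ) : ℝ) + 1) = y := by
      have : ((3 * (y / 3) + 1 : ℕ) : ℝ) = (y : ℝ) := by rw [← e]
      push_cast at this
      exact this
    rw [e'] at h2
    refine h2.trans ?_
    rw [← Real.log_pow]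
    apply Real.log_le_log (by positivity)
    rw [div_le_iff₀ (by norm_num)]
    have h3 : y < 2 ^ (Nat.log 2 y + 1) := Nat.lt_pow_succ_log_self (by norm_num) y
    have h4 : y ≤ 2 ^ (Nat.log 2 y) * 2 := by rw [pow_succ] at h3; omega
    exact_mod_cast h4

theorem dyadic_cc (n s : ℕ) :
    ∑ j ∈ (Ioc 0 n).filter (fun j => Nat.log 2 (n / j) = s ), cc j ≤ (n : ℝ) / 2 ^ s := by
  have h1 := sum_cc (n / 2 ^ s)
  have h2 : ((n / 2 ^ s : ℕ) : ℝ) ≤ (n : ℝ) / 2 ^ s := by
    have := @Nat.cast_div_le ℝ _ _ _ n (2 ^ s)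
    push_cast at this
    exact this
  refine le_trans ?_ h2
  rw [← h1]
  have hsub : (Ioc 0 n).filter (fun j => Nat.log 2 (n / j) = s) ⊆ Ioc 0 (n / 2 ^ s) := by
    intro j hj
    rw [Finset.mem_filter, Finset.mem_Ioc] at hj
    obtain ⟨⟨hj0, hjn⟩, hj2⟩ := hj
    have hnj : 1 ≤ n / j := by rw [Nat.one_le_div_iff hj0]; exact hjn
    have h3 : 2 ^ s ≤ n / j := by rw [← hj2]; exact Nat.pow_log_le_self 2 (by omega)
    rw [Finset.mem_Ioc]
    refine ⟨hj0, ?_⟩
    rw [Nat.le_div_iff_mul_le (by positivity)]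
    rw [Nat.le_div_iff_mul_le hj0] at h3
    linarith
  calc ∑ j ∈ (Ioc 0 n).filter (fun j => Nat.log 2 (n / j) = s), cc j
      = ∑ j ∈ (Ioc 0 n).filter (fun j => Nat.log 2 (n / j) = s),
        cc j * (if (n / 2 ^ s / j) % 3 = 1 then 1 else 0) := by
        apply Finset.sum_congr rfl
        intro j hj
        rw [Finset.mem_filter, Finset.mem_Ioc] at hj
        obtain ⟨⟨hj0, hjn⟩, hj2⟩ := hj
        have hnj : 1 ≤ n / j := by rw [Nat.one_le_div_iff hj0]; exact hjn
        have h3 : 2 ^ s ≤ n / j := by rw [← hj2]; exact Nat.pow_log_le_self 2 (by omega)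
        have h4 : n / j < 2 ^ (s + 1) := by
          rw [← hj2]; exact Nat.lt_pow_succ_log_self (by norm_num) _
        have h5 : n / 2 ^ s / j = 1 := by
          rw [Nat.div_div_eq_div_mul, mul_comm, ← Nat.div_div_eq_div_mul]
          rw [Nat.div_eq_iff (by positivity)]
          rw [pow_succ] at h4
          constructor
          · omega
          · omega
        rw [h5]; simp
    _ ≤ ∑ j ∈ Ioc 0 (n / 2 ^ s), cc j * (if (n / 2 ^ s / j) % 3 = 1 then 1 else 0) := by
        apply Finset.sum_le_sum_of_subset_of_nonneg hsub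
        intro j _ _
        apply mul_nonneg (cc_nonneg j)
        split_ifs <;> norm_num

theorem sum_s_div (S : ℕ) : ∑ s ∈ range S, (s : ℝ) / 2 ^ s = 2 - (S + 1) * 2 / 2 ^ S := by
  induction S with
  | zero => norm_num
  | succ S ih =>
    rw [Finset.sum_range_succ, ih, pow_succ]
    push_cast
    field_simp
    ring

theorem sum_hh (S : ℕ) : ∑ s ∈ range S, hh s / 2 ^ s ≤ 161 / 128 * Real.log 2 := by
  have h2 : 0 ≤ Real.log 2 := Real.log_nonneg (by norm_num)
  have hmono : ∑ s ∈ range S, hh s / 2 ^ s ≤ ∑ s ∈ range (S + 4), hh s / 2 ^ s := by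
    apply Finset.sum_le_sum_of_subset_of_nonneg
    · intro s hs; rw [Finset.mem_range] at *; omega
    · intro s _ _; exact div_nonneg (hh_nonneg s) (by positivity)
  refine hmono.trans ?_
  rw [add_comm S 4, Finset.sum_range_add]
  have h4 : ∑ s ∈ range 4, hh s / 2 ^ s = (3 / 8 + 33 / 128) * Real.log 2 := by
    simp only [Finset.sum_range_succ, Finset.sum_range_zero, hh]
    norm_num
    ring
  have h5 : ∑ s ∈ range S, hh (4 + s) / 2 ^ (4 + s) ≤ 5 / 8 * Real.log 2 := by
    have h6 : ∀ s ∈ range S, hh (4 + s) / 2 ^ (4 + s) = Real.log 2 * (((4 + s : ℕ) : ℝ) / 2 ^ (4 + s)) := by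
      intro s _
      unfold hh
      rw [if_neg (by omega), if_neg (by omega), if_neg (by omega)]
      ring
    rw [Finset.sum_congr rfl h6, ← Finset.mul_sum]
    have h7 := sum_s_div (4 + S)
    rw [Finset.sum_range_add] at h7
    have h8 : ∑ s ∈ range 4, (s : ℝ) / 2 ^ s = 11 / 8 := by
      simp only [Finset.sum_range_succ, Finset.sum_range_zero]
      norm_num
    rw [h8] at h7
    have h9 : (0 : ℝ) ≤ (((4 + S : ℕ) : ℝ) + 1) * 2 / 2 ^ (4 + S) := by positivity
    have h10 : ∑ s ∈ range S, (((4 + s : ℕ) : ℝ) / 2 ^ (4 + s)) ≤ 5 / 8 := by linarith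
    calc Real.log 2 * ∑ s ∈ range S, (((4 + s : ℕ) : ℝ) / 2 ^ (4 + s))
        ≤ Real.log 2 * (5 / 8) := mul_le_mul_of_nonneg_left h10 h2
      _ = 5 / 8 * Real.log 2 := by ring
  rw [h4]
  linarith

theorem TT_le (n : ℕ) : TT n ≤ 161 / 128 * Real.log 2 * n := by
  rw [TT_eq]
  have h1 : ∑ j ∈ Ioc 0 n, cc j * LL (n / j) ≤ ∑ j ∈ Ioc 0 n, cc j * hh (Nat.log 2 (n / j)) := by
    apply Finset.sum_le_sum
    intro j hj
    rw [Finset.mem_Ioc] at hj
    apply mul_le_mul_of_nonneg_left _ (cc_nonneg j)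
    apply LL_le_hh
    rw [Nat.one_le_div_iff hj.1]; exact hj.2
  refine h1.trans ?_
  have hmaps : ∀ j ∈ Ioc 0 n, Nat.log 2 (n / j) ∈ range (Nat.log 2 n + 1) := by
    intro j _
    rw [Finset.mem_range]
    have := Nat.log_mono_right (b := 2) (Nat.div_le_self n j)
    omega
  rw [← Finset.sum_fiberwise_of_maps_to hmaps]
  have h2 : ∀ s ∈ range (Nat.log 2 n + 1),
      ∑ j ∈ (Ioc 0 n).filter (fun j => Nat.log 2 (n / j) = s), cc j * hh (Nat.log 2 (n / j))
        ≤ n * (hh s / 2 ^ s) := by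
    intro s _
    have h3 : ∑ j ∈ (Ioc 0 n).filter (fun j => Nat.log 2 (n / j) = s), cc j * hh (Nat.log 2 (n / j))
        = (∑ j ∈ (Ioc 0 n).filter (fun j => Nat.log 2 (n / j) = s), cc j) * hh s := by
      rw [Finset.sum_mul]
      apply Finset.sum_congr rfl
      intro j hj
      rw [Finset.mem_filter] at hj
      rw [hj.2]
    rw [h3]
    calc (∑ j ∈ (Ioc 0 n).filter (fun j => Nat.log 2 (n / j) = s), cc j) * hh s
        ≤ ((n : ℝ) / 2 ^ s) * hh s := mul_le_mul_of_nonneg_right (dyadic_cc n s) (hh_nonneg s)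
      _ = n * (hh s / 2 ^ s) := by ring
  refine (Finset.sum_le_sum h2).trans ?_
  rw [← Finset.mul_sum]
  calc (n : ℝ) * ∑ s ∈ range (Nat.log 2 n + 1), hh s / 2 ^ s
      ≤ n * (161 / 128 * Real.log 2) := mul_le_mul_of_nonneg_left (sum_hh _) (by positivity)
    _ = _ := by ring

end Pool.Agent.Work.MP_86ed72_nt
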