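import Pool.Agent.Work.MP_86ed72_nt.Chi

namespace Pool.Agent.Work.MP_86ed72_nt

open Finset ArithmeticFunction

/-- Correction function. -/
noncomputable def extra (q : ℕ) : ℝ :=
  if q = 3 ∨ q = 9 ∨ q = 27 then Real.log 3 else if q = 4 ∨ q = 16 then 2 * Real.log 2 else
    if q = 25 then 2 * Real.log 5 else 0

theorem vm_prime_pow {p k : ℕ} (hp : p.Prime) (hk : k ≠ 0) :
    vonMangoldt (p ^ k) = Real.log p := by
  rw [vonMangoldt_apply_pow hk, vonMangoldt_apply_prime hp]

theorem pointwise3 (q : ℕ) :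
    2 * lam (fun p => p % 3 = 1) q - vonMangoldt q ≤ chiL q - extra q := by
  have hchiL : chiL q = chi q * vonMangoldt q := by unfold chiL; rw [pmul_apply]
  rw [hchiL]
  by_cases hsp : q = 3 ∨ q = 9 ∨ q = 27 ∨ q = 4 ∨ q = 16 ∨ q = 25
  · have h3 : Nat.Prime 3 := by norm_num
    have h5 : Nat.Prime 5 := by norm_num
    have v3 := vm_prime_pow h3 (k := 1) (by norm_num)
    have v9 := vm_prime_pow h3 (k := 2) (by norm_num)
    have v27 := vm_prime_pow h3 (k := 3) (by norm_num)
    have v4 := vm_prime_pow Nat.prime_two (k := 2) (by norm_num)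
    have v16 := vm_prime_pow Nat.prime_two (k := 4) (by norm_num)
    have v25 := vm_prime_pow h5 (k := 2) (by norm_num)
    have m3 : Nat.minFac 3 = 3 := by norm_num
    have m9 : Nat.minFac 9 = 3 := by norm_num
    have m27 : Nat.minFac 27 = 3 := by norm_num
    have m4 : Nat.minFac 4 = 2 := by norm_num
    have m16 : Nat.minFac 16 = 2 := by norm_num
    have m25 : Nat.minFac 25 = 5 := by norm_num
    norm_num at v3 v9 v27 v4 v16 v25
    rcases hsp with rfl | rfl | rfl | rfl | rfl | rfl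
    · rw [lam_apply, chi_apply, v3, m3]; simp [extra]
    · rw [lam_apply, chi_apply, v9, m9]; simp [extra]
    · rw [lam_apply, chi_apply, v27, m27]; simp [extra]
    · rw [lam_apply, chi_apply, v4, m4]; simp [extra]; linarith
    · rw [lam_apply, chi_apply, v16, m16]; simp [extra]; linarith
    · rw [lam_apply, chi_apply, v25, m25]; simp [extra]; linarith
  · have hex : extra q = 0 := by
      unfold extra
      rw [if_neg (by tauto), if_neg (by tauto), if_neg (by tauto)]
    rw [hex, sub_zero]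
    have hv : (0 : ℝ) ≤ vonMangoldt q := vonMangoldt_nonneg
    by_cases hpp : IsPrimePow q
    · rw [lam_apply]
      split_ifs with h
      · have h1 := isPrimePow_mod (by norm_num) hpp h
        rw [chi_apply, if_pos h1]; linarith
      · have := neg_one_le_chi q
        nlinarith
    · rw [lam_apply, vonMangoldt_eq_zero' hpp]; simp

theorem two_log_part_sub (n : ℕ) :
    2 * Real.log (part (fun p => p % 3 = 1) n.factorial) - Real.log (n.factorial)
      ≤ TT n - ∑ q ∈ Ioc 0 n, extra q * ((n / q : ℕ) : ℝ) := by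
  rw [log_part_factorial_eq_sum, log_factorial_eq_sum n n le_rfl, TT, Finset.mul_sum,
    ← Finset.sum_sub_distrib, ← Finset.sum_sub_distrib]
  apply Finset.sum_le_sum
  intro q _
  have h := pointwise3 q
  have h2 : (0 : ℝ) ≤ ((n / q : ℕ) : ℝ) := Nat.cast_nonneg _
  nlinarith

theorem sum_extra {n : ℕ} (hn : 27 ≤ n) :
    ∑ q ∈ Ioc 0 n, extra q * ((n / q : ℕ) : ℝ)
      = Real.log 3 * ((n / 3 : ℕ) : ℝ) + Real.log 3 * ((n / 9 : ℕ) : ℝ)
        + Real.log 3 * ((n / 27 : ℕ) : ℝ)
        + 2 * Real.log 2 * ((n / 4 : ℕ) : ℝ) + 2 * Real.log 2 * ((n / 16 : ℕ) : ℝ)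
        + 2 * Real.log 5 * ((n / 25 : ℕ) : ℝ) := by
  have hsub : ({3, 9, 27, 4, 16, 25} : Finset ℕ) ⊆ Ioc 0 n := by
    intro q hq
    simp only [Finset.mem_insert, Finset.mem_singleton] at hq
    rw [Finset.mem_Ioc]; omega
  rw [← Finset.sum_subset hsub]
  · simp [extra]; ring
  · intro q _ hq
    simp only [Finset.mem_insert, Finset.mem_singleton, not_or] at hq
    unfold extra
    rw [if_neg (by tauto), if_neg (by tauto), if_neg (by tauto), zero_mul]

theorem cast_div_ge (n q : ℕ) (hq : 0 < q) : ((n : ℝ) - (q - 1)) / q ≤ ((n / q : ℕ) : ℝ) := by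
  have h1 := Nat.div_add_mod n q
  have h2 := Nat.mod_lt n hq
  rw [div_le_iff₀ (by positivity)]
  have h3 : n ≤ q * (n / q) + (q - 1) := by omega
  have h4 : ((n : ℕ) : ℝ) ≤ ((q * (n / q) + (q - 1) : ℕ) : ℝ) := by exact_mod_cast h3
  push_cast [Nat.cast_sub (show 1 ≤ q by omega)] at h4
  linarith

theorem K3_large {n : ℕ} (hn : 49 ≤ n) :
    2 * Real.log (part (fun p => p % 3 = 1) n.factorial) + 2 * Real.log 3
      ≤ Real.log (n.factorial) := by
  have h1 := two_log_part_sub n
  rw [sum_extra (by omega)] at h1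
  have h2 := TT_le n
  have hnR : (49 : ℝ) ≤ n := by exact_mod_cast hn
  have c3 := cast_div_ge n 3 (by norm_num)
  have c9 := cast_div_ge n 9 (by norm_num)
  have c27 := cast_div_ge n 27 (by norm_num)
  have c4 := cast_div_ge n 4 (by norm_num)
  have c16 := cast_div_ge n 16 (by norm_num)
  have c25 := cast_div_ge n 25 (by norm_num)
  norm_num at c3 c9 c27 c4 c16 c25
  set lm := Real.log 2 with hlm
  have hlm0 : 0 < lm := Real.log_pos (by norm_num)
  have l3 : 11 / 7 * lm ≤ Real.log 3 := by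
    have h : Real.log ((2 : ℝ) ^ 11) ≤ Real.log ((3 : ℝ) ^ 7) :=
      Real.log_le_log (by norm_num) (by norm_num)
    rw [Real.log_pow, Real.log_pow] at h
    push_cast at h
    linarith
  have l5 : 16 / 7 * lm ≤ Real.log 5 := by
    have h : Real.log ((2 : ℝ) ^ 16) ≤ Real.log ((5 : ℝ) ^ 7) :=
      Real.log_le_log (by norm_num) (by norm_num)
    rw [Real.log_pow, Real.log_pow] at h
    push_cast at h
    linarith
  have e3 : 11 / 7 * lm * (13 / 27 * n - 122 / 27) ≤
      Real.log 3 * ((n / 3 : ℕ) : ℝ) + Real.log 3 * ((n / 9 : ℕ) : ℝ)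
        + Real.log 3 * ((n / 27 : ℕ) : ℝ) - 2 * Real.log 3 := by
    have h3 : 0 ≤ 13 / 27 * (n : ℝ) - 122 / 27 := by linarith
    calc 11 / 7 * lm * (13 / 27 * n - 122 / 27) ≤ Real.log 3 * (13 / 27 * n - 122 / 27) :=
          mul_le_mul_of_nonneg_right l3 h3
      _ ≤ Real.log 3 * (((n / 3 : ℕ) : ℝ) + ((n / 9 : ℕ) : ℝ) + ((n / 27 : ℕ) : ℝ) - 2) := by
          apply mul_le_mul_of_nonneg_left _ (by linarith)
          linarith
      _ = _ := by ring
  have e4 : 2 * lm * (5 / 16 * n - 27 / 16) ≤ 2 * lm * ((n / 4 : ℕ) : ℝ)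
      + 2 * lm * ((n / 16 : ℕ) : ℝ) := by
    rw [← mul_add]
    apply mul_le_mul_of_nonneg_left _ (by linarith)
    linarith
  have e5 : 2 * (16 / 7 * lm) * (1 / 25 * n - 24 / 25) ≤ 2 * Real.log 5 * ((n / 25 : ℕ) : ℝ) := by
    have h3 : 0 ≤ 1 / 25 * (n : ℝ) - 24 / 25 := by linarith
    calc 2 * (16 / 7 * lm) * (1 / 25 * n - 24 / 25)
        ≤ 2 * Real.log 5 * (1 / 25 * n - 24 / 25) :=
          mul_le_mul_of_nonneg_right (by linarith) h3
      _ ≤ _ := by
          apply mul_le_mul_of_nonneg_left _ (by linarith)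
          linarith
  have key : 0 ≤ lm * ((11 / 7 * (13 / 27 * n - 122 / 27) + 2 * (5 / 16 * n - 27 / 16)
      + 2 * (16 / 7) * (1 / 25 * n - 24 / 25)) - 161 / 128 * n) := by
    apply mul_nonneg hlm0.le
    linarith
  nlinarith

theorem lam_small {q : ℕ} (hq : q < 49) (h : lam (fun p => p % 3 = 1) q ≠ 0) :
    q ∈ ({7, 13, 19, 31, 37, 43} : Finset ℕ) := by
  rw [lam_apply] at h
  split_ifs at h with h1
  · have h2 : IsPrimePow q := vonMangoldt_ne_zero_iff.mp h
    obtain ⟨p, k, hp, hk, rfl⟩ := h2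
    have hp' := hp.nat_prime
    rw [hp'.pow_minFac hk.ne'] at h1
    have h7 : 7 ≤ p := by
      by_contra hc
      have h3 := hp'.two_le
      have : p = 4 := by omega
      rw [this] at hp'
      revert hp'; norm_num
    have hk1 : k = 1 := by
      by_contra hc
      have h4 : 7 ^ 2 ≤ p ^ 2 := Nat.pow_le_pow_left h7 2
      have h5 : p ^ 2 ≤ p ^ k := Nat.pow_le_pow_right (by omega) (by omega)
      omega
    subst hk1
    rw [pow_one] at *
    interval_cases p <;> first | (exfalso; revert hp'; norm_num; done) | (simp; done) | omega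
  · exact absurd rfl h

theorem K3_small {n : ℕ} (hn4 : 4 ≤ n) (hn : n < 49) :
    2 * Real.log (part (fun p => p % 3 = 1) n.factorial) + 2 * Real.log 3
      ≤ Real.log (n.factorial) := by
  have h1 : Real.log (part (fun p => p % 3 = 1) n.factorial)
      ≤ ∑ q ∈ ({7, 13, 19, 31, 37, 43} : Finset ℕ), Real.log q * ((n / q : ℕ) : ℝ) := by
    rw [log_part_factorial_eq_sum]
    have hA : ∑ q ∈ Ioc 0 n, lam (fun p => p % 3 = 1) q * ((n / q : ℕ) : ℝ)
        = ∑ q ∈ (Ioc 0 n).filter (fun q => q ∈ ({7, 13, 19, 31, 37, 43} : Finset ℕ)),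
          lam (fun p => p % 3 = 1) q * ((n / q : ℕ) : ℝ) := by
      symm
      apply Finset.sum_subset (Finset.filter_subset _ _)
      intro q hq hq'
      rw [Finset.mem_filter, not_and] at hq'
      have h2 := hq' hq
      rw [Finset.mem_Ioc] at hq
      by_cases h3 : lam (fun p => p % 3 = 1) q = 0
      · rw [h3, zero_mul]
      · exact absurd (lam_small (by omega) h3) h2
    rw [hA]
    calc ∑ q ∈ (Ioc 0 n).filter (fun q => q ∈ ({7, 13, 19, 31, 37, 43} : Finset ℕ)),
          lam (fun p => p % 3 = 1) q * ((n / q : ℕ) : ℝ)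
        ≤ ∑ q ∈ (Ioc 0 n).filter (fun q => q ∈ ({7, 13, 19, 31, 37, 43} : Finset ℕ)),
          Real.log q * ((n / q : ℕ) : ℝ) := by
          apply Finset.sum_le_sum
          intro q _
          apply mul_le_mul_of_nonneg_right _ (Nat.cast_nonneg _)
          exact (lam_le _ q).trans vonMangoldt_le_log
      _ ≤ _ := by
          apply Finset.sum_le_sum_of_subset_of_nonneg
          · intro q hq; exact (Finset.mem_filter.mp hq).2
          · intro q hq _
            simp only [Finset.mem_insert, Finset.mem_singleton] at hq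
            apply mul_nonneg (Real.log_nonneg _) (Nat.cast_nonneg _)
            have : 1 ≤ q := by omega
            exact_mod_cast this
  have h2 : ∑ q ∈ ({7, 13, 19, 31, 37, 43} : Finset ℕ), Real.log q * ((n / q : ℕ) : ℝ)
      = Real.log ((7 ^ (n / 7) * 13 ^ (n / 13) * 19 ^ (n / 19) * 31 ^ (n / 31) * 37 ^ (n / 37)
        * 43 ^ (n / 43) : ℕ) : ℝ) := by
    push_cast
    rw [Real.log_mul (by positivity) (by positivity), Real.log_mul (by positivity) (by positivity),
      Real.log_mul (by positivity) (by positivity), Real.log_mul (by positivity) (by positivity),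
      Real.log_mul (by positivity) (by positivity), Real.log_pow, Real.log_pow, Real.log_pow,
      Real.log_pow, Real.log_pow, Real.log_pow]
    simp
    ring
  rw [h2] at h1
  have h3 : 9 * (7 ^ (n / 7) * 13 ^ (n / 13) * 19 ^ (n / 19) * 31 ^ (n / 31) * 37 ^ (n / 37)
        * 43 ^ (n / 43)) ^ 2 ≤ n.factorial := by
    interval_cases n <;> decide
  have h4 : Real.log ((9 * (7 ^ (n / 7) * 13 ^ (n / 13) * 19 ^ (n / 19) * 31 ^ (n / 31)
      * 37 ^ (n / 37) * 43 ^ (n / 43)) ^ 2 : ℕ) : ℝ) ≤ Real.log (n.factorial) := by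
    apply Real.log_le_log
    · positivity
    · exact_mod_cast h3
  rw [Nat.cast_mul, Nat.cast_pow, Real.log_mul (by norm_num) (by positivity), Real.log_pow] at h4
  have h9 : Real.log ((9 : ℕ) : ℝ) = 2 * Real.log 3 := by
    rw [show ((9 : ℕ) : ℝ) = 3 ^ 2 by norm_num, Real.log_pow]; norm_num
  rw [h9] at h4
  push_cast at h1 h4
  linarith

theorem case_b {n x m : ℕ} (hdvd : 3 ∣ m) (hm : 0 < m)
    (hx : 2 ≤ x) (h : n.factorial + x = x ^ (m + 1)) : False := by
  obtain ⟨t, rfl⟩ := hdvd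
  have ht : 1 ≤ t := by omega
  have hl : Nat.Prime 3 := by norm_num
  have hodd : Odd 3 := by decide
  set y := x ^ t with hy
  have hy2 : 2 ≤ y := by
    calc 2 ≤ x := hx
      _ = x ^ 1 := (pow_one x).symm
      _ ≤ x ^ t := Nat.pow_le_pow_right (by omega) ht
  set Q := ∑ i ∈ range 3, y ^ i with hQ
  have hQv : Q = 1 + y + y ^ 2 := by rw [hQ]; simp [Finset.sum_range_succ]
  have hQ7 : 7 ≤ Q := by rw [hQv]; nlinarith
  have hdvdQ : Q ∣ n.factorial := by
    refine ⟨x * (y - 1), ?_⟩
    have h1 := mul_geom_sum (y : ℤ) 3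
    zify [show 1 ≤ y by omega]
    have h2 : ((n.factorial : ℕ) : ℤ) + x = x ^ (3 * t + 1) := by exact_mod_cast h
    have h3 : (x : ℤ) ^ (3 * t + 1) = x * (y : ℤ) ^ 3 := by
      rw [hy]; push_cast; rw [pow_succ, mul_comm 3 t, pow_mul]; ring
    rw [hQ]; push_cast
    rw [h3] at h2
    linear_combination h2 - (x : ℤ) * h1
  have hkey : Q ∣ 3 * part (fun p => p % 3 = 1) n.factorial :=
    dvd_mul_part hdvdQ n.factorial_ne_zero hl (fun q hq hqd => prime_dvd_geom hl hq hqd)
      (factorization_geom_le hl hodd hy2)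
  have h1 := log_le_of_dvd (by norm_num) (by omega) hkey
  by_cases hn : n < 4
  · have h2 : Q ≤ n.factorial := Nat.le_of_dvd n.factorial_pos hdvdQ
    have h3 : n.factorial ≤ 6 := by
      have : n ≤ 3 := by omega
      calc n.factorial ≤ (3).factorial := Nat.factorial_le this
        _ = 6 := rfl
    omega
  have hK : 2 * Real.log (part (fun p => p % 3 = 1) n.factorial) + 2 * Real.log 3
      ≤ Real.log (n.factorial) := by
    by_cases hn2 : n < 49
    · exact K3_small (by omega) hn2
    · exact K3_large (by omega)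
  -- n! < y^4 < Q^2
  have h2 : n.factorial < Q ^ 2 := by
    have h3 : n.factorial < x ^ (3 * t + 1) := by omega
    have h4 : x ^ (3 * t + 1) ≤ y ^ 4 := by
      rw [hy, ← pow_mul]
      apply Nat.pow_le_pow_right (by omega)
      omega
    have h5 : y ^ 4 ≤ Q ^ 2 := by
      have : y ^ 2 ≤ Q := by omega
      calc y ^ 4 = (y ^ 2) ^ 2 := by ring
        _ ≤ Q ^ 2 := Nat.pow_le_pow_left this 2
    omega
  have h3 : Real.log (n.factorial) < 2 * Real.log Q := by
    have h4 : (n.factorial : ℝ) < (Q : ℝ) ^ 2 := by exact_mod_cast h2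
    have h5 := Real.log_lt_log (by positivity) h4
    rw [Real.log_pow] at h5
    push_cast at h5
    exact h5
  push_cast at h1
  linarith

theorem main (n x k : ℕ) (hx : 2 ≤ x) (hk : 4 ≤ k) (hk5 : k ≠ 5) :
    n.factorial + x ≠ x ^ k := by
  intro h
  obtain ⟨m, rfl⟩ : ∃ m, k = m + 1 := ⟨k - 1, by omega⟩
  by_cases h3 : 3 ∣ m
  · exact case_b h3 (by omega) hx h
  rcases Nat.eq_two_pow_or_exists_odd_prime_and_dvd m with ⟨a, ha⟩ | ⟨p, hp, hpd, hpo⟩
  · have ha3 : 3 ≤ a := by
      by_contra hc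
      interval_cases a <;> omega
    have h8 : 8 ∣ m := by
      rw [ha]
      exact pow_dvd_pow 2 ha3
    exact case_c h8 (by omega) hx h
  · have hp5 : 5 ≤ p := by
      by_contra hc
      have h2 := hp.two_le
      interval_cases p
      · revert hpo; decide
      · exact h3 hpd
      · revert hpo; decide
    exact case_a hp hp5 hpd (by omega) hx h

end Pool.Agent.Work.MP_86ed72_nt
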